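import Mathlib

open scoped Manifold ContDiff

noncomputable section

namespace H91WG

/-! ### Groupoids -/

/-- A groupoid with set of objects `M` and set of arrows `G`.  The product `mul g h` is meaningful
when `src g = tgt h`. -/
structure Gpd (M G : Type*) where
  src : G → M
  tgt : G → M
  one : M → G
  inv : G → G
  mul : G → G → G
  src_one : ∀ x, src (one x) = x
  tgt_one : ∀ x, tgt (one x) = x
  src_inv : ∀ g, src (inv g) = tgt g
  tgt_inv : ∀ g, tgt (inv g) = src g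
  src_mul : ∀ g h, src g = tgt h → src (mul g h) = src h
  tgt_mul : ∀ g h, src g = tgt h → tgt (mul g h) = tgt g
  mul_assoc : ∀ g h k, src g = tgt h → src h = tgt k → mul (mul g h) k = mul g (mul h k)
  one_mul : ∀ g, mul (one (tgt g)) g = g
  mul_one : ∀ g, mul g (one (src g)) = g
  mul_inv : ∀ g, mul g (inv g) = one (tgt g)
  inv_mul : ∀ g, mul (inv g) g = one (src g)

/-- The isotropy group at `x`. -/
def Gpd.Iso {M G : Type*} (𝒢 : Gpd M G) (x : M) : Type _ := {g : G // 𝒢.src g = x ∧ 𝒢.tgt g = x}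

instance {M G : Type*} (𝒢 : Gpd M G) (x : M) : Group (𝒢.Iso x) where
  mul g h := ⟨𝒢.mul g.1 h.1,
    by rw [𝒢.src_mul _ _ (g.2.1.trans h.2.2.symm)]; exact h.2.1,
    by rw [𝒢.tgt_mul _ _ (g.2.1.trans h.2.2.symm)]; exact g.2.2⟩
  one := ⟨𝒢.one x, 𝒢.src_one x, 𝒢.tgt_one x⟩
  inv g := ⟨𝒢.inv g.1, (𝒢.src_inv _).trans g.2.2, (𝒢.tgt_inv _).trans g.2.1⟩
  mul_assoc g h k := Subtype.ext
    (𝒢.mul_assoc g.1 h.1 k.1 (g.2.1.trans h.2.2.symm) (h.2.1.trans k.2.2.symm))
  one_mul g := Subtype.ext (by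
    have h := 𝒢.one_mul g.1
    rw [g.2.2] at h
    exact h)
  mul_one g := Subtype.ext (by
    have h := 𝒢.mul_one g.1
    rw [g.2.1] at h
    exact h)
  inv_mul_cancel g := Subtype.ext (by
    have h := 𝒢.inv_mul g.1
    rw [g.2.1] at h
    exact h)

/-- `ℋ`, with the map `q`, is the quotient of the groupoid `𝒢` by the commutator subgroups of its
isotropy groups: two arrows have the same image iff they have the same source and target and
differ by an element of the commutator subgroup of the isotropy group at the target. -/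
structure IsAbelianization {M G H : Type*} (𝒢 : Gpd M G) (ℋ : Gpd M H) (q : G → H) : Prop where
  surjective : Function.Surjective q
  src_map : ∀ g, ℋ.src (q g) = 𝒢.src g
  tgt_map : ∀ g, ℋ.tgt (q g) = 𝒢.tgt g
  map_mul : ∀ g h, 𝒢.src g = 𝒢.tgt h → q (𝒢.mul g h) = ℋ.mul (q g) (q h)
  fiber : ∀ g h, q g = q h ↔ 𝒢.src g = 𝒢.src h ∧ 𝒢.tgt g = 𝒢.tgt h ∧
    ∃ k ∈ commutator (𝒢.Iso (𝒢.tgt h)), 𝒢.mul k.1 h = g

/-! ### Manifolds, smooth maps and forms -/

/-- Euclidean space of dimension `k`. -/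
abbrev Eu (k : ℕ) := EuclideanSpace ℝ (Fin k)

/-- A smooth manifold of dimension `k` (not necessarily Hausdorff or second countable). -/
structure Man (k : ℕ) where
  pt : Type*
  top : TopologicalSpace pt
  charts : ChartedSpace (Eu k) pt
  smooth : IsManifold 𝓘(ℝ, Eu k) ∞ pt

attribute [instance] Man.top Man.charts Man.smooth

/-- Smoothness of `f` on the open subset `U` of `X`. -/
def SmoothOn {k l : ℕ} (X : Man k) (Y : Man l) (f : X.pt → Y.pt) (U : Set X.pt) : Prop :=
  IsOpen U ∧ ContMDiffOn 𝓘(ℝ, Eu k) 𝓘(ℝ, Eu l) ∞ f U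

/-- Linear maps between Euclidean spaces. -/
abbrev Lin (k l : ℕ) := Eu k →L[ℝ] Eu l

/-- The derivative of `f : X → Y` at `x` (`mfderiv`; the tangent spaces are identified with
Euclidean spaces by the preferred charts). -/
def derMap {k l : ℕ} (X : Man k) (Y : Man l) (f : X.pt → Y.pt) (x : X.pt) : Lin k l :=
  mfderiv 𝓘(ℝ, Eu k) 𝓘(ℝ, Eu l) f x

/-- The derivative of `f : X → Y` at `x`, applied to the tangent vector `u` at `x`. -/
def der {k l : ℕ} (X : Man k) (Y : Man l) (f : X.pt → Y.pt) (x : X.pt) (u : Eu k) : Eu l :=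
  derMap X Y f x u

/-- `f : X → Y` is a smooth submersion. -/
def IsSubmersion {k l : ℕ} (X : Man k) (Y : Man l) (f : X.pt → Y.pt) : Prop :=
  SmoothOn X Y f Set.univ ∧ ∀ x, Function.Surjective (der X Y f x)

/-- `f` is a smooth map from the open subset `Z` of the vector space `E` to the manifold `X`. -/
def Plot {k : ℕ} (X : Man k) {E : Type} [NormedAddCommGroup E] [NormedSpace ℝ E] (Z : Set E)
    (f : E → X.pt) : Prop :=
  IsOpen Z ∧ ContMDiffOn 𝓘(ℝ, E) 𝓘(ℝ, Eu k) ∞ f Z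

/-- The derivative of `f : E → X` at `z` (`mfderiv`). -/
def derMapE {k : ℕ} (X : Man k) {E : Type} [NormedAddCommGroup E] [NormedSpace ℝ E]
    (f : E → X.pt) (z : E) : E →L[ℝ] Eu k :=
  mfderiv 𝓘(ℝ, E) 𝓘(ℝ, Eu k) f z

/-- The derivative of `f : E → X` at `z`, applied to `u`. -/
def derE {k : ℕ} (X : Man k) {E : Type} [NormedAddCommGroup E] [NormedSpace ℝ E]
    (f : E → X.pt) (z u : E) : Eu k :=
  derMapE X f z u

/-- Bilinear forms on Euclidean space. -/
abbrev Bil (k : ℕ) := Eu k →L[ℝ] Eu k →L[ℝ] ℝ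

/-- The value of a bilinear form. -/
def Bil.ev {k : ℕ} (b : Bil k) (u v : Eu k) : ℝ := b u v

/-- A field of bilinear forms on the tangent spaces of `X`. -/
def Form {k : ℕ} (X : Man k) := X.pt → Bil k

/-- The pull-back of `Ω` by the map `f : E → X`, at the point `z`, on the vectors `u`, `v`. -/
def pb {k : ℕ} {X : Man k} (Ω : Form X) {E : Type} [NormedAddCommGroup E] [NormedSpace ℝ E]
    (f : E → X.pt) (z u v : E) : ℝ :=
  (Ω (f z)).ev (derE X f z u) (derE X f z v)

/-- `Ω` is a symplectic form: alternating, nondegenerate, smooth and closed (the last two are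
tested on all smooth maps from open subsets of finite-dimensional spaces, which include the
inverses of the charts). -/
structure IsSymplecticForm {k : ℕ} {X : Man k} (Ω : Form X) : Prop where
  alt : ∀ x u, (Ω x).ev u u = 0
  nondeg : ∀ x u, (∀ v, (Ω x).ev u v = 0) → u = 0
  smooth : ∀ (E : Type) [NormedAddCommGroup E] [NormedSpace ℝ E] [FiniteDimensional ℝ E]
    (Z : Set E) (f : E → X.pt), Plot X Z f → ∀ u v, ContDiffOn ℝ ∞ (fun z => pb Ω f z u v) Z
  closed : ∀ (E : Type) [NormedAddCommGroup E] [NormedSpace ℝ E] [FiniteDimensional ℝ E]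
    (Z : Set E) (f : E → X.pt), Plot X Z f → ∀ z ∈ Z, ∀ u v w,
    fderiv ℝ (fun y => pb Ω f y v w) z u + fderiv ℝ (fun y => pb Ω f y w u) z v
      + fderiv ℝ (fun y => pb Ω f y u v) z w = 0

/-! ### Lie groupoids -/

/-- `ℋ` is a Lie groupoid over the manifold `M` with manifold of arrows `H` (not necessarily
Hausdorff). Smoothness of the product is tested on composable pairs of smooth maps. -/
structure IsLie {n d : ℕ} (M : Man n) (H : Man d) (ℋ : Gpd M.pt H.pt) : Prop where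
  src : IsSubmersion H M ℋ.src
  tgt : IsSubmersion H M ℋ.tgt
  one : SmoothOn M H ℋ.one Set.univ
  inv : SmoothOn H H ℋ.inv Set.univ
  mul : ∀ (E : Type) [NormedAddCommGroup E] [NormedSpace ℝ E] [FiniteDimensional ℝ E]
    (Z : Set E) (f h : E → H.pt), Plot H Z f → Plot H Z h → (∀ z ∈ Z, ℋ.src (f z) = ℋ.tgt (h z)) →
    Plot H Z (fun z => ℋ.mul (f z) (h z))

/-- The form `Ω` on the arrows of `ℋ` is multiplicative: `m^* Ω = pr₁^* Ω + pr₂^* Ω` on composable
pairs. -/
def IsMultiplicativeForm {n d : ℕ} {M : Man n} {H : Man d} (ℋ : Gpd M.pt H.pt) (Ω : Form H) :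
    Prop :=
  ∀ (E : Type) [NormedAddCommGroup E] [NormedSpace ℝ E] [FiniteDimensional ℝ E]
    (Z : Set E) (f h : E → H.pt), Plot H Z f → Plot H Z h → (∀ z ∈ Z, ℋ.src (f z) = ℋ.tgt (h z)) →
    ∀ z ∈ Z, ∀ u v, pb Ω (fun y => ℋ.mul (f y) (h y)) z u v = pb Ω f z u v + pb Ω h z u v

/-! ### Weinstein groupoids -/

/-- The map `f`, defined on the subset `Z` of `E`, lifts locally through `p : P → G` to a smooth
map to `P`. -/
def Lifts {m : ℕ} {P : Man m} {G : Type*} (p : P.pt → G) {E : Type} [NormedAddCommGroup E]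
    [NormedSpace ℝ E] (Z : Set E) (f : E → G) : Prop :=
  ∀ z ∈ Z, ∃ (Z' : Set E) (f' : E → P.pt), z ∈ Z' ∧ Plot P Z' f' ∧ ∀ y ∈ Z', p (f' y) = f y

/-- The groupoid `𝒢` over the manifold `M` is presented by the symplectic manifold `(P, Ω)`:
the set of arrows `G` is the orbit set of a countable family `θ` of local symplectomorphisms of
the second countable manifold `P`, the structure maps of `𝒢` are smooth in this presentation, and
`Ω` is multiplicative. -/
structure IsPresentation {n m : ℕ} {M : Man n} {P : Man m} {G : Type*} (𝒢 : Gpd M.pt G)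
    (p : P.pt → G) (Ω : Form P) : Prop where
  countable : SecondCountableTopology P.pt
  symplectic : IsSymplecticForm Ω
  surj : Function.Surjective p
  orbit : ∃ (U : ℕ → Set P.pt) (θ : ℕ → P.pt → P.pt),
    (∀ i, SmoothOn P P (θ i) (U i) ∧
      ∀ a ∈ U i, ∀ u v, (Ω (θ i a)).ev (der P P (θ i) a u) (der P P (θ i) a v) = (Ω a).ev u v) ∧
    ∀ a b, p a = p b ↔ ∃ i, a ∈ U i ∧ θ i a = b
  src : IsSubmersion P M (fun a => 𝒢.src (p a))
  tgt : IsSubmersion P M (fun a => 𝒢.tgt (p a))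
  one : ∀ (E : Type) [NormedAddCommGroup E] [NormedSpace ℝ E] [FiniteDimensional ℝ E]
    (Z : Set E) (y : E → M.pt), Plot M Z y → Lifts p Z (fun z => 𝒢.one (y z))
  inv : ∀ (E : Type) [NormedAddCommGroup E] [NormedSpace ℝ E] [FiniteDimensional ℝ E]
    (Z : Set E) (f : E → P.pt), Plot P Z f → Lifts p Z (fun z => 𝒢.inv (p (f z)))
  mul : ∀ (E : Type) [NormedAddCommGroup E] [NormedSpace ℝ E] [FiniteDimensional ℝ E]
    (Z : Set E) (f h : E → P.pt), Plot P Z f → Plot P Z h →
    (∀ z ∈ Z, 𝒢.src (p (f z)) = 𝒢.tgt (p (h z))) →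
    Lifts p Z (fun z => 𝒢.mul (p (f z)) (p (h z)))
  mult : ∀ (E : Type) [NormedAddCommGroup E] [NormedSpace ℝ E] [FiniteDimensional ℝ E]
    (Z : Set E) (f h k : E → P.pt), Plot P Z f → Plot P Z h → Plot P Z k →
    (∀ z ∈ Z, 𝒢.src (p (f z)) = 𝒢.tgt (p (h z))) →
    (∀ z ∈ Z, p (k z) = 𝒢.mul (p (f z)) (p (h z))) →
    ∀ z ∈ Z, ∀ u v, pb Ω k z u v = pb Ω f z u v + pb Ω h z u v

end H91WG

end
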