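import Pool.Agent.Helper91.PG.Calc
import Pool.Agent.Helper91.WG.Gpd

open scoped Manifold ContDiff Topology commutatorElement
open Set

noncomputable section

namespace H91WG

open H91PG

set_option linter.unusedSectionVars false

section orbit

variable {m : ℕ} {P : Type*} [TopologicalSpace P] [ChartedSpace (Eu m) P]
  [IsManifold 𝓘(ℝ, Eu m) ∞ P] {Ω : FormField m P}
variable {E : Type} [NormedAddCommGroup E] [NormedSpace ℝ E] [FiniteDimensional ℝ E]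

/-- Maps which are pointwise related by a countable family of local symplectomorphisms have the
same pull-back. -/
theorem pull_orbit (hΩ : IsSymplectic Ω) {U : ℕ → Set P} {θ : ℕ → P → P}
    (hU : ∀ i, IsOpen (U i)) (hθ : ∀ i, ContMDiffOn 𝓘(ℝ, Eu m) 𝓘(ℝ, Eu m) ∞ (θ i) (U i))
    (hinv : ∀ i, ∀ a ∈ U i, ∀ u v : TangentSpace 𝓘(ℝ, Eu m) a,
      Ω (θ i a) (mfderiv 𝓘(ℝ, Eu m) 𝓘(ℝ, Eu m) (θ i) a u)
        (mfderiv 𝓘(ℝ, Eu m) 𝓘(ℝ, Eu m) (θ i) a v) = Ω a u v)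
    {Z : Set E} (hZ : IsOpen Z) {f f' : E → P} (hf : Sm m f Z) (hf' : Sm m f' Z)
    (h : ∀ z ∈ Z, ∃ i, f z ∈ U i ∧ θ i (f z) = f' z) {z : E} (hz : z ∈ Z) (u v : E) :
    pull Ω f z u v = pull Ω f' z u v := by
  by_contra hne
  have : CompleteSpace E := FiniteDimensional.complete ℝ E
  have hc1 : ContinuousOn (fun y => pull Ω f y u v) Z := (hΩ.smooth _ Z f hZ hf u v).continuousOn
  have hc2 : ContinuousOn (fun y => pull Ω f' y u v) Z :=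
    (hΩ.smooth _ Z f' hZ hf' u v).continuousOn
  set χ := extChartAt 𝓘(ℝ, Eu m) (f' z) with hχ
  -- the open set where the pull-backs differ
  have hD₀ : IsOpen (Z ∩ (fun y => pull Ω f y u v - pull Ω f' y u v) ⁻¹' {0}ᶜ) :=
    (hc1.sub hc2).isOpen_inter_preimage hZ isOpen_compl_singleton
  have hD₁ : IsOpen (Z ∩ f' ⁻¹' χ.source) :=
    hf'.continuousOn.isOpen_inter_preimage hZ (isOpen_extChartAt_source _)
  set D : Set E := (Z ∩ (fun y => pull Ω f y u v - pull Ω f' y u v) ⁻¹' {0}ᶜ) ∩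
    (Z ∩ f' ⁻¹' χ.source) with hD
  have hDo : IsOpen D := hD₀.inter hD₁
  have hzD : z ∈ D := ⟨⟨hz, sub_ne_zero.mpr hne⟩, hz, mem_extChartAt_source _⟩
  have hDZ : D ⊆ Z := fun y hy => hy.1.1
  let A : ℕ → Set E := fun i => {y | y ∈ D ∧ f y ∈ U i ∧ θ i (f y) = f' y}
  have hcov : D = ⋃ i, A i := by
    apply Subset.antisymm
    · intro y hy
      obtain ⟨i, hi⟩ := h y (hDZ hy)
      exact mem_iUnion.mpr ⟨i, hy, hi⟩
    · intro y hy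
      obtain ⟨i, hi⟩ := mem_iUnion.mp hy
      exact hi.1
  obtain ⟨i, hi⟩ : ∃ i, ¬ IsNowhereDense (A i) := by
    by_contra hall
    push Not at hall
    have h1 : IsMeagre D := by
      rw [hcov]
      exact isMeagre_iUnion (fun i => (hall i).isMeagre)
    exact not_isMeagre_of_isOpen hDo ⟨z, hzD⟩ h1
  have hne' : (interior (closure (A i))).Nonempty := by
    rw [nonempty_iff_ne_empty]
    exact hi
  set V := interior (closure (A i)) with hV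
  obtain ⟨y₁, hy₁V, hy₁A⟩ : (V ∩ A i).Nonempty := by
    obtain ⟨y, hy⟩ := hne'
    exact mem_closure_iff.mp (interior_subset hy) V isOpen_interior hy
  -- the open set where both sides are in the chart
  have hfc : ContinuousOn f D := hf.continuousOn.mono hDZ
  have hO₁ : IsOpen (D ∩ f ⁻¹' U i) := hfc.isOpen_inter_preimage hDo (hU i)
  have hθf : ContinuousOn (fun y => θ i (f y)) (D ∩ f ⁻¹' U i) :=
    (hθ i).continuousOn.comp (hfc.mono inter_subset_left) (fun y hy => hy.2)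
  have hO₂ : IsOpen ((D ∩ f ⁻¹' U i) ∩ (fun y => θ i (f y)) ⁻¹' χ.source) :=
    hθf.isOpen_inter_preimage hO₁ (isOpen_extChartAt_source _)
  set O := (D ∩ f ⁻¹' U i) ∩ (fun y => θ i (f y)) ⁻¹' χ.source with hO
  have hy₁O : y₁ ∈ O := by
    refine ⟨⟨hy₁A.1, hy₁A.2.1⟩, ?_⟩
    change θ i (f y₁) ∈ χ.source
    rw [hy₁A.2.2]
    exact hy₁A.1.2.2
  have hχc : ContinuousOn χ χ.source := continuousOn_extChartAt _
  have hg1 : ContinuousOn (fun y => χ (θ i (f y))) O :=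
    hχc.comp (hθf.mono inter_subset_left) (fun y hy => hy.2)
  have hg2 : ContinuousOn (fun y => χ (f' y)) O :=
    hχc.comp (hf'.continuousOn.mono (fun y hy => hDZ hy.1.1)) (fun y hy => hy.1.1.2.2)
  have heq : ∀ y ∈ O ∩ V, θ i (f y) = f' y := by
    intro y hy
    apply χ.injOn hy.1.2 hy.1.1.1.2.2
    by_contra hne2
    have hB : IsOpen (O ∩ (fun y => χ (θ i (f y)) - χ (f' y)) ⁻¹' {0}ᶜ) :=
      (hg1.sub hg2).isOpen_inter_preimage hO₂ isOpen_compl_singleton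
    have hcl := interior_subset hy.2
    obtain ⟨y', hy'⟩ := mem_closure_iff.mp hcl _ hB ⟨hy.1, sub_ne_zero.mpr hne2⟩
    apply hy'.1.2
    change χ (θ i (f y')) - χ (f' y') = 0
    rw [hy'.2.2.2, sub_self]
  -- conclusion
  have hev : f' =ᶠ[𝓝 y₁] fun y => θ i (f y) := by
    filter_upwards [(hO₂.inter isOpen_interior).mem_nhds ⟨hy₁O, hy₁V⟩] with y hy
    exact (heq y hy).symm
  have h1 : pull Ω f' y₁ u v = pull Ω f y₁ u v := by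
    rw [pull_congr hev]
    unfold pull
    have hd1 : MDifferentiableAt 𝓘(ℝ, Eu m) 𝓘(ℝ, Eu m) (θ i) (f y₁) :=
      ((hθ i).contMDiffAt ((hU i).mem_nhds hy₁A.2.1)).mdifferentiableAt (by simp)
    have hd2 := hf.mdiff hZ (hDZ hy₁A.1)
    have hc := mfderiv_comp (I := 𝓘(ℝ, E)) (I' := 𝓘(ℝ, Eu m)) (I'' := 𝓘(ℝ, Eu m)) y₁
      (g := θ i) (f := f) hd1 hd2
    have hc' : mfderiv 𝓘(ℝ, E) 𝓘(ℝ, Eu m) (fun y => θ i (f y)) y₁ = _ := hc
    rw [hc']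
    exact hinv i (f y₁) hy₁A.2.1 _ _
  exact hy₁A.1.1.2 (sub_eq_zero.mpr h1.symm)

end orbit

/-! ### Plots -/

section plots

variable {m : ℕ} {G P : Type*} [TopologicalSpace P] [ChartedSpace (Eu m) P]

/-- `f : E → G` lifts locally to smooth maps to `P`. -/
def Pl (m : ℕ) {G P : Type*} [TopologicalSpace P] [ChartedSpace (Eu m) P] (p : P → G) {E : Type*}
    [NormedAddCommGroup E] [NormedSpace ℝ E] (f : E → G) (Z : Set E) : Prop :=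
  ∀ z ∈ Z, ∃ (Z' : Set E) (f' : E → P), IsOpen Z' ∧ z ∈ Z' ∧ Sm m f' Z' ∧ ∀ y ∈ Z', p (f' y) = f y

variable {p : P → G}
variable {E : Type} [NormedAddCommGroup E] [NormedSpace ℝ E]

lemma pl_of_sm {f : E → P} {Z : Set E} (hZ : IsOpen Z) (hf : Sm m f Z) :
    Pl m p (fun z => p (f z)) Z :=
  fun _ hz => ⟨Z, f, hZ, hz, hf, fun _ _ => rfl⟩

lemma Pl.mono {f : E → G} {Z Z' : Set E} (hf : Pl m p f Z) (h : Z' ⊆ Z) : Pl m p f Z' :=
  fun z hz => hf z (h hz)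

lemma pl_of_locally {f : E → G} {Z : Set E}
    (h : ∀ z ∈ Z, ∃ Z' : Set E, z ∈ Z' ∧ Pl m p f Z') : Pl m p f Z := by
  intro z hz
  obtain ⟨Z', hz', hf⟩ := h z hz
  exact hf z hz'

lemma Pl.congr {f g : E → G} {Z : Set E} (hZ : IsOpen Z) (hf : Pl m p f Z)
    (h : ∀ z ∈ Z, g z = f z) : Pl m p g Z := by
  intro z hz
  obtain ⟨Z', f', h1, h2, h3, h4⟩ := hf z hz
  exact ⟨Z' ∩ Z, f', h1.inter hZ, ⟨h2, hz⟩, h3.mono inter_subset_left,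
    fun y hy => (h4 y hy.1).trans (h y hy.2).symm⟩

lemma Pl.comp_space {F : Type} [NormedAddCommGroup F] [NormedSpace ℝ F] {f : E → G} {Z : Set E}
    (hf : Pl m p f Z) {h : F → E} {Y : Set F} (hY : IsOpen Y) (hh : ContDiffOn ℝ ∞ h Y)
    (hm : MapsTo h Y Z) : Pl m p (fun y => f (h y)) Y := by
  intro y hy
  obtain ⟨Z', f', h1, h2, h3, h4⟩ := hf (h y) (hm hy)
  refine ⟨Y ∩ h ⁻¹' Z', fun y => f' (h y), hh.continuousOn.isOpen_inter_preimage hY h1, ⟨hy, h2⟩,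
    h3.comp_space (hh.mono inter_subset_left) (fun y hy => hy.2), fun y hy => h4 _ hy.2⟩

end plots

/-- A groupoid `𝒢` over the manifold `M` whose set of arrows is the orbit set of a countable family
of local symplectomorphisms of the symplectic manifold `(P, Ω)`. -/
structure WData (n : ℕ) {m : ℕ} {M G P : Type*} [TopologicalSpace M] [ChartedSpace (Eu n) M]
    [TopologicalSpace P] [ChartedSpace (Eu m) P] (𝒢 : Gpd M G) (p : P → G)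
    (Ω : FormField m P) : Prop where
  surj : Function.Surjective p
  orbit : ∃ (U : ℕ → Set P) (θ : ℕ → P → P), (∀ i, IsOpen (U i)) ∧
    (∀ i, ContMDiffOn 𝓘(ℝ, Eu m) 𝓘(ℝ, Eu m) ∞ (θ i) (U i)) ∧
    (∀ i, ∀ a ∈ U i, ∀ u v : TangentSpace 𝓘(ℝ, Eu m) a,
      Ω (θ i a) (mfderiv 𝓘(ℝ, Eu m) 𝓘(ℝ, Eu m) (θ i) a u)
        (mfderiv 𝓘(ℝ, Eu m) 𝓘(ℝ, Eu m) (θ i) a v) = Ω a u v) ∧
    ∀ a b, p a = p b ↔ ∃ i, a ∈ U i ∧ θ i a = b
  smooth_src : ContMDiff 𝓘(ℝ, Eu m) 𝓘(ℝ, Eu n) ∞ (fun a => 𝒢.src (p a))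
  smooth_tgt : ContMDiff 𝓘(ℝ, Eu m) 𝓘(ℝ, Eu n) ∞ (fun a => 𝒢.tgt (p a))
  submersion_src : ∀ a, Function.Surjective
    (mfderiv 𝓘(ℝ, Eu m) 𝓘(ℝ, Eu n) (fun a => 𝒢.src (p a)) a)
  plot_one : ∀ (E : Type) [NormedAddCommGroup E] [NormedSpace ℝ E] [FiniteDimensional ℝ E]
    (Z : Set E) (y : E → M), IsOpen Z → Sm n y Z → Pl m p (fun z => 𝒢.one (y z)) Z
  plot_inv : ∀ (E : Type) [NormedAddCommGroup E] [NormedSpace ℝ E] [FiniteDimensional ℝ E]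
    (Z : Set E) (f : E → P), IsOpen Z → Sm m f Z → Pl m p (fun z => 𝒢.inv (p (f z))) Z
  plot_mul : ∀ (E : Type) [NormedAddCommGroup E] [NormedSpace ℝ E] [FiniteDimensional ℝ E]
    (Z : Set E) (f h : E → P), IsOpen Z → Sm m f Z → Sm m h Z →
    (∀ z ∈ Z, 𝒢.src (p (f z)) = 𝒢.tgt (p (h z))) → Pl m p (fun z => 𝒢.mul (p (f z)) (p (h z))) Z
  symplectic : IsSymplectic Ω
  mult : ∀ (E : Type) [NormedAddCommGroup E] [NormedSpace ℝ E] [FiniteDimensional ℝ E]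
    (Z : Set E) (f h k : E → P), IsOpen Z → Sm m f Z → Sm m h Z → Sm m k Z →
    (∀ z ∈ Z, 𝒢.src (p (f z)) = 𝒢.tgt (p (h z))) →
    (∀ z ∈ Z, p (k z) = 𝒢.mul (p (f z)) (p (h z))) →
    ∀ z ∈ Z, ∀ u v, pull Ω k z u v = pull Ω f z u v + pull Ω h z u v

section pcalc

variable {n m : ℕ} {M G P : Type*} [TopologicalSpace M] [ChartedSpace (Eu n) M]
  [TopologicalSpace P] [ChartedSpace (Eu m) P] {𝒢 : Gpd M G} {p : P → G} {Ω : FormField m P}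
variable {E : Type} [NormedAddCommGroup E] [NormedSpace ℝ E] [FiniteDimensional ℝ E]

lemma pull_lift_eq [IsManifold 𝓘(ℝ, Eu m) ∞ P] (hW : WData n 𝒢 p Ω) {Z : Set E} (hZ : IsOpen Z)
    {f f' : E → P}
    (hf : Sm m f Z) (hf' : Sm m f' Z) (h : ∀ z ∈ Z, p (f z) = p (f' z)) {z : E} (hz : z ∈ Z)
    (u v : E) : pull Ω f z u v = pull Ω f' z u v := by
  obtain ⟨U, θ, h1, h2, h3, h4⟩ := hW.orbit
  exact pull_orbit hW.symplectic h1 h2 h3 hZ hf hf' (fun z hz => (h4 _ _).mp (h z hz)) hz u v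

/-- fibres of `p` are countable -/
lemma fiber_countable (hW : WData n 𝒢 p Ω) (g : G) : (p ⁻¹' {g}).Countable := by
  obtain ⟨U, θ, h1, h2, h3, h4⟩ := hW.orbit
  obtain ⟨a, ha⟩ := hW.surj g
  refine (countable_range (fun i => θ i a)).mono ?_
  intro b hb
  have hb' : p a = p b := ha.trans hb.symm
  obtain ⟨i, -, hi⟩ := (h4 a b).mp hb'
  exact ⟨i, hi⟩

/-- lifting a plot through a given point -/
lemma exists_lift_at [IsManifold 𝓘(ℝ, Eu m) ∞ P] (hW : WData n 𝒢 p Ω) {Z : Set E} (hZ : IsOpen Z)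
    {f : E → G} (hf : Pl m p f Z) {z : E} (hz : z ∈ Z) {a : P} (ha : p a = f z) :
    ∃ (Z' : Set E) (f' : E → P), IsOpen Z' ∧ z ∈ Z' ∧ Z' ⊆ Z ∧ Sm m f' Z' ∧ f' z = a ∧
      ∀ y ∈ Z', p (f' y) = f y := by
  obtain ⟨Z', f', h1, h2, h3, h4⟩ := hf z hz
  obtain ⟨U, θ, o1, o2, -, o4⟩ := hW.orbit
  obtain ⟨i, hi, hi'⟩ := (o4 (f' z) a).mp ((h4 z h2).trans ha.symm)
  have hO : IsOpen (Z' ∩ f' ⁻¹' U i) := h3.continuousOn.isOpen_inter_preimage h1 (o1 i)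
  refine ⟨(Z' ∩ f' ⁻¹' U i) ∩ Z, fun y => θ i (f' y), hO.inter hZ, ⟨⟨h2, hi⟩, hz⟩,
    inter_subset_right, ?_, hi', ?_⟩
  · exact comp_smOn (o2 i) (h3.mono (fun y hy => hy.1.1)) (fun y hy => hy.1.2)
  · intro y hy
    rw [← h4 y hy.1.1]
    exact ((o4 _ _).mpr ⟨i, hy.1.2, rfl⟩).symm

open Classical in
/-- The pull-back of the form by a plot. -/
def plv (p : P → G) (Ω : FormField m P) (f : E → G) (z u v : E) : ℝ :=
  if h : ∃ (f' : E → P) (Z' : Set E), IsOpen Z' ∧ z ∈ Z' ∧ Sm m f' Z' ∧ ∀ y ∈ Z', p (f' y) = f y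
    then pull Ω h.choose z u v else 0

lemma plv_eq [IsManifold 𝓘(ℝ, Eu m) ∞ P] (hW : WData n 𝒢 p Ω) {Z : Set E} (hZ : IsOpen Z) {f : E → G}
    {f' : E → P} (hf' : Sm m f' Z) (h : ∀ y ∈ Z, p (f' y) = f y) {z : E} (hz : z ∈ Z) (u v : E) :
    plv p Ω f z u v = pull Ω f' z u v := by
  have hex : ∃ (f' : E → P) (Z' : Set E), IsOpen Z' ∧ z ∈ Z' ∧ Sm m f' Z' ∧
      ∀ y ∈ Z', p (f' y) = f y := ⟨f', Z, hZ, hz, hf', h⟩
  rw [plv, dif_pos hex]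
  obtain ⟨Z', h1, h2, h3, h4⟩ := hex.choose_spec
  exact pull_lift_eq hW (h1.inter hZ) (h3.mono inter_subset_left) (hf'.mono inter_subset_right)
    (fun y hy => (h4 y hy.1).trans (h y hy.2).symm) ⟨h2, hz⟩ u v

lemma plv_congr [IsManifold 𝓘(ℝ, Eu m) ∞ P] (hW : WData n 𝒢 p Ω) {f g : E → G} {Z : Set E}
    (hZ : IsOpen Z) (hf : Pl m p f Z) {z : E} (hz : z ∈ Z) (h : f =ᶠ[𝓝 z] g) (u v : E) :
    plv p Ω f z u v = plv p Ω g z u v := by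
  obtain ⟨Z', f', h1, h2, h3, h4⟩ := hf z hz
  obtain ⟨Z'', h5, h6, h7⟩ := mem_nhds_iff.mp h
  rw [plv_eq hW h1 h3 h4 h2, plv_eq hW (h1.inter h6) (h3.mono inter_subset_left)
    (fun y hy => (h4 y hy.1).trans (h5 hy.2)) ⟨h2, h7⟩]

lemma plv_comp [IsManifold 𝓘(ℝ, Eu m) ∞ P] (hW : WData n 𝒢 p Ω) {F : Type} [NormedAddCommGroup F]
    [NormedSpace ℝ F] [FiniteDimensional ℝ F] {f : E → G} {Z : Set E} (hf : Pl m p f Z)
    {h : F → E} {Y : Set F} (hY : IsOpen Y) (hh : ContDiffOn ℝ ∞ h Y) {y : F} (hy : y ∈ Y)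
    (hyZ : h y ∈ Z) (u v : F) :
    plv p Ω (fun w => f (h w)) y u v = plv p Ω f (h y) (fderiv ℝ h y u) (fderiv ℝ h y v) := by
  obtain ⟨Z', f', h1, h2, h3, h4⟩ := hf (h y) hyZ
  have hO : IsOpen (Y ∩ h ⁻¹' Z') := hh.continuousOn.isOpen_inter_preimage hY h1
  rw [plv_eq hW hO (f' := fun w => f' (h w))
    (h3.comp_space (hh.mono inter_subset_left) (fun y hy => hy.2)) (fun y hy => h4 _ hy.2)
    ⟨hy, h2⟩, plv_eq hW h1 h3 h4 h2]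
  exact pull_comp (h3.mdiff h1 h2)
    ((hh.contDiffAt (hY.mem_nhds hy)).differentiableAt (by simp)) u v

/-- smoothness of the pull-back -/
lemma plv_smooth [IsManifold 𝓘(ℝ, Eu m) ∞ P] (hW : WData n 𝒢 p Ω) {f : E → G} {Z : Set E}
    (hf : Pl m p f Z) (u v : E) : ContDiffOn ℝ ∞ (fun z => plv p Ω f z u v) Z := by
  intro z hz
  obtain ⟨Z', f', h1, h2, h3, h4⟩ := hf z hz
  have h5 : ContDiffOn ℝ ∞ (fun z => plv p Ω f z u v) Z' :=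
    (hW.symplectic.smooth E Z' f' h1 h3 u v).congr (fun y hy => plv_eq hW h1 h3 h4 hy u v)
  exact (h5.contDiffAt (h1.mem_nhds h2)).contDiffWithinAt

lemma Pl.mul (hW : WData n 𝒢 p Ω) {f h : E → G} {Z : Set E} (hf : Pl m p f Z)
    (hh : Pl m p h Z) (hc : ∀ z ∈ Z, 𝒢.src (f z) = 𝒢.tgt (h z)) (hZ : IsOpen Z) :
    Pl m p (fun z => 𝒢.mul (f z) (h z)) Z := by
  intro z hz
  obtain ⟨Z₁, f', h1, h2, h3, h4⟩ := hf z hz
  obtain ⟨Z₂, h', k1, k2, k3, k4⟩ := hh z hz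
  have hO : IsOpen ((Z₁ ∩ Z₂) ∩ Z) := (h1.inter k1).inter hZ
  have hp := hW.plot_mul E ((Z₁ ∩ Z₂) ∩ Z) f' h' hO (h3.mono (fun y hy => hy.1.1))
    (k3.mono (fun y hy => hy.1.2)) (fun y hy => by rw [h4 y hy.1.1, k4 y hy.1.2, hc y hy.2])
  exact (hp.congr hO (fun y hy => by rw [h4 y hy.1.1, k4 y hy.1.2])) z ⟨⟨h2, k2⟩, hz⟩

lemma Pl.inv (hW : WData n 𝒢 p Ω) {f : E → G} {Z : Set E} (hf : Pl m p f Z) :
    Pl m p (fun z => 𝒢.inv (f z)) Z := by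
  intro z hz
  obtain ⟨Z₁, f', h1, h2, h3, h4⟩ := hf z hz
  have hp := hW.plot_inv E Z₁ f' h1 h3
  exact (hp.congr h1 (fun y hy => by rw [h4 y hy])) z h2

lemma Pl.src (hW : WData n 𝒢 p Ω) {f : E → G} {Z : Set E} (hf : Pl m p f Z) :
    Sm n (fun z => 𝒢.src (f z)) Z := by
  refine sm_of_locally (fun z hz => ?_)
  obtain ⟨Z₁, f', h1, h2, h3, h4⟩ := hf z hz
  exact ⟨Z₁, h1, h2, (comp_sm hW.smooth_src h3).congr' (fun y hy => by rw [← h4 y hy])⟩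

lemma Pl.tgt (hW : WData n 𝒢 p Ω) {f : E → G} {Z : Set E} (hf : Pl m p f Z) :
    Sm n (fun z => 𝒢.tgt (f z)) Z := by
  refine sm_of_locally (fun z hz => ?_)
  obtain ⟨Z₁, f', h1, h2, h3, h4⟩ := hf z hz
  exact ⟨Z₁, h1, h2, (comp_sm hW.smooth_tgt h3).congr' (fun y hy => by rw [← h4 y hy])⟩

lemma plv_mul [IsManifold 𝓘(ℝ, Eu m) ∞ P] (hW : WData n 𝒢 p Ω) {Z : Set E} (hZ : IsOpen Z)
    {f h : E → G} (hf : Pl m p f Z) (hh : Pl m p h Z)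
    (hc : ∀ z ∈ Z, 𝒢.src (f z) = 𝒢.tgt (h z)) {z : E} (hz : z ∈ Z) (u v : E) :
    plv p Ω (fun w => 𝒢.mul (f w) (h w)) z u v = plv p Ω f z u v + plv p Ω h z u v := by
  obtain ⟨Z₁, f', h1, h2, h3, h4⟩ := hf z hz
  obtain ⟨Z₂, h', k1, k2, k3, k4⟩ := hh z hz
  obtain ⟨Z₃, k', l1, l2, l3, l4⟩ := (hf.mul hW hh hc hZ) z hz
  have hO : IsOpen ((Z₁ ∩ Z₂) ∩ (Z₃ ∩ Z)) := (h1.inter k1).inter (l1.inter hZ)
  have key := hW.mult E ((Z₁ ∩ Z₂) ∩ (Z₃ ∩ Z)) f' h' k' hO (h3.mono (fun y hy => hy.1.1))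
    (k3.mono (fun y hy => hy.1.2)) (l3.mono (fun y hy => hy.2.1))
    (fun y hy => by rw [h4 y hy.1.1, k4 y hy.1.2, hc y hy.2.2])
    (fun y hy => by rw [l4 y hy.2.1, h4 y hy.1.1, k4 y hy.1.2]) z ⟨⟨h2, k2⟩, l2, hz⟩ u v
  rw [plv_eq hW l1 l3 l4 l2, plv_eq hW h1 h3 h4 h2, plv_eq hW k1 k3 k4 k2, key]

lemma plv_one [IsManifold 𝓘(ℝ, Eu m) ∞ P] (hW : WData n 𝒢 p Ω) {Z : Set E} (hZ : IsOpen Z)
    {y : E → M} (hy : Sm n y Z) {z : E} (hz : z ∈ Z) (u v : E) :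
    plv p Ω (fun w => 𝒢.one (y w)) z u v = 0 := by
  have h1 := hW.plot_one E Z y hZ hy
  have h2 := plv_mul hW hZ h1 h1 (fun w _ => by rw [𝒢.src_one, 𝒢.tgt_one]) hz u v
  have h3 : (fun w => 𝒢.mul (𝒢.one (y w)) (𝒢.one (y w))) = fun w => 𝒢.one (y w) := by
    funext w
    have := 𝒢.mul_one (𝒢.one (y w))
    rw [𝒢.src_one] at this
    exact this
  rw [h3] at h2
  linarith

lemma plv_inv [IsManifold 𝓘(ℝ, Eu m) ∞ P] (hW : WData n 𝒢 p Ω) {Z : Set E} (hZ : IsOpen Z)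
    {f : E → G} (hf : Pl m p f Z) {z : E} (hz : z ∈ Z) (u v : E) :
    plv p Ω (fun w => 𝒢.inv (f w)) z u v = - plv p Ω f z u v := by
  have h2 := plv_mul hW hZ hf (hf.inv hW) (fun w _ => (𝒢.tgt_inv _).symm) hz u v
  have h3 : (fun w => 𝒢.mul (f w) (𝒢.inv (f w))) = fun w => 𝒢.one (𝒢.tgt (f w)) := by
    funext w; exact 𝒢.mul_inv _
  rw [h3, plv_one hW hZ (hf.tgt hW) hz] at h2
  linarith

end pcalc

namespace Gpd

variable {M G : Type*} (𝒢 : Gpd M G)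

@[simp] lemma iso_mul_val {x : M} (g h : 𝒢.Iso x) : (g * h).1 = 𝒢.mul g.1 h.1 := rfl
@[simp] lemma iso_inv_val {x : M} (g : 𝒢.Iso x) : (g⁻¹).1 = 𝒢.inv g.1 := rfl
@[simp] lemma iso_one_val {x : M} : (1 : 𝒢.Iso x).1 = 𝒢.one x := rfl

/-- commutator of two (isotropy) elements -/
def comm (g h : G) : G := 𝒢.mul (𝒢.mul (𝒢.mul g h) (𝒢.inv g)) (𝒢.inv h)

lemma iso_comm_val {x : M} (g h : 𝒢.Iso x) : (⁅g, h⁆).1 = 𝒢.comm g.1 h.1 := rfl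

end Gpd

end H91WG

end
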