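import Pool.Agent.Helper91.WG.Rank
import Pool.Agent.Helper78.SG.CountComm

open scoped Manifold ContDiff Topology commutatorElement
open Set

noncomputable section

namespace H91WG

open H91PG

set_option linter.unusedSectionVars false

section const

variable {m : ℕ} {X : Type*} [TopologicalSpace X] [ChartedSpace (Eu m) X]
  [IsManifold 𝓘(ℝ, Eu m) ∞ X]
variable {E : Type} [NormedAddCommGroup E] [NormedSpace ℝ E]

lemma locally_const {f : E → X} {B : Set E} (hB : IsOpen B) (hf : Sm m f B)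
    (h0 : ∀ b ∈ B, ∀ u : E, (mfderiv 𝓘(ℝ, E) 𝓘(ℝ, Eu m) f b) u = 0) {b : E} (hb : b ∈ B) :
    ∀ᶠ y in 𝓝 b, f y = f b := by
  set χ := extChartAt 𝓘(ℝ, Eu m) (f b) with hχ
  have hfc : ContinuousOn f B := hf.continuousOn
  have hpre : IsOpen (B ∩ f ⁻¹' χ.source) :=
    hfc.isOpen_inter_preimage hB (isOpen_extChartAt_source _)
  obtain ⟨ε, hε, hball⟩ := Metric.isOpen_iff.mp hpre b ⟨hb, mem_extChartAt_source _⟩
  have hsm : ContMDiffOn 𝓘(ℝ, Eu m) 𝓘(ℝ, Eu m) ∞ χ χ.source := by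
    rw [hχ, extChartAt_source]; exact contMDiffOn_extChartAt
  have hder : ∀ y ∈ Metric.ball b ε, HasFDerivAt (𝕜 := ℝ) (fun y => χ (f y))
      (0 : E →L[ℝ] Eu m) y := by
    intro y hy
    have hyB := (hball hy).1
    have hyS := (hball hy).2
    have hd1 := hf.mdiff hB hyB
    have hd2 : MDifferentiableAt 𝓘(ℝ, Eu m) 𝓘(ℝ, Eu m) χ (f y) :=
      (hsm.contMDiffAt ((isOpen_extChartAt_source _).mem_nhds hyS)).mdifferentiableAt (by simp)
    have hc := mfderiv_comp (I := 𝓘(ℝ, E)) (I' := 𝓘(ℝ, Eu m)) (I'' := 𝓘(ℝ, Eu m)) y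
      (g := χ) (f := f) hd2 hd1
    have hdd : DifferentiableAt ℝ (fun y => χ (f y)) y := (hd2.comp y hd1).differentiableAt
    have hz : fderiv ℝ (fun y => χ (f y)) y = 0 := by
      ext1 u
      rw [← mfderiv_eq_fderiv]
      refine (DFunLike.congr_fun hc u).trans ?_
      change (mfderiv 𝓘(ℝ, Eu m) 𝓘(ℝ, Eu m) χ (f y)) ((mfderiv 𝓘(ℝ, E) 𝓘(ℝ, Eu m) f y) u) = 0
      rw [h0 y hyB u, map_zero]
    rw [← hz]
    exact hdd.hasFDerivAt
  filter_upwards [Metric.ball_mem_nhds b hε] with y hy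
  have h1 : χ (f y) = χ (f b) :=
    Metric.isOpen_ball.is_const_of_fderiv_eq_zero (𝕜 := ℝ) (f := fun y => χ (f y))
      (convex_ball b ε).isPreconnected
      (fun y hy => (hder y hy).differentiableAt.differentiableWithinAt)
      (fun y hy => (hder y hy).fderiv) hy (Metric.mem_ball_self hε)
  exact χ.injOn (hball hy).2 (mem_extChartAt_source _) h1

lemma pull_zero_left {Ω : FormField m X} (f : E → X) (z v : E) : pull Ω f z 0 v = 0 := by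
  let L : E →L[ℝ] Eu m := mfderiv 𝓘(ℝ, E) 𝓘(ℝ, Eu m) f z
  let B : Eu m →L[ℝ] Eu m →L[ℝ] ℝ := Ω (f z)
  change B (L 0) (L v) = 0
  rw [map_zero, map_zero]
  rfl

lemma const_of_locally {G : Type*} {f : E → G} {B : Set E} (hB : IsOpen B)
    (hBc : IsPreconnected B) (h : ∀ b ∈ B, ∀ᶠ y in 𝓝 b, f y = f b)
    {b b' : E} (hb : b ∈ B) (hb' : b' ∈ B) : f b' = f b := by
  by_contra hne
  have hu : IsOpen {y | y ∈ B ∧ f y = f b} := by
    rw [isOpen_iff_mem_nhds]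
    rintro y ⟨hy, hyb⟩
    filter_upwards [h y hy, hB.mem_nhds hy] with z hz hzB
    exact ⟨hzB, hz.trans hyb⟩
  have hv : IsOpen {y | y ∈ B ∧ f y ≠ f b} := by
    rw [isOpen_iff_mem_nhds]
    rintro y ⟨hy, hyb⟩
    filter_upwards [h y hy, hB.mem_nhds hy] with z hz hzB
    exact ⟨hzB, by rw [hz]; exact hyb⟩
  obtain ⟨z, -, hz1, hz2⟩ := hBc _ _ hu hv (fun y hy => by
    by_cases h : f y = f b
    · exact Or.inl ⟨hy, h⟩
    · exact Or.inr ⟨hy, h⟩) ⟨b, hb, hb, rfl⟩ ⟨b', hb', hb', hne⟩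
  exact hz2.2 hz1.2

end const

section comm

variable {n m : ℕ} {M G P : Type*} [TopologicalSpace M] [ChartedSpace (Eu n) M]
  [TopologicalSpace P] [ChartedSpace (Eu m) P] [IsManifold 𝓘(ℝ, Eu n) ∞ M]
  [IsManifold 𝓘(ℝ, Eu m) ∞ P] {𝒢 : Gpd M G} {p : P → G} {Ω : FormField m P}

/-- A smooth family of isotropy arrows with vanishing pull-back is locally constant in the
isotropy directions. -/
theorem family_loc_const (hW : WData n 𝒢 p Ω) (x : M) {F : Type} [NormedAddCommGroup F]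
    [NormedSpace ℝ F] [FiniteDimensional ℝ F] {Z : Set (Eu n × F)} (hZ : IsOpen Z)
    {K : Eu n × F → G} (hK : Pl m p K Z)
    (hZT : ∀ z ∈ Z, z.1 ∈ (ch (n := n) x).target)
    (hKt : ∀ z ∈ Z, 𝒢.tgt (K z) = (ch (n := n) x).symm z.1)
    (hKp : ∀ z ∈ Z, ∀ a b, plv p Ω K z a b = 0) {v₀ : Eu n} {b₀ : F} (hz : (v₀, b₀) ∈ Z) :
    ∀ᶠ b in 𝓝 b₀, K (v₀, b) = K (v₀, b₀) := by
  set ψ := ch (n := n) x with hψ
  set x' := ψ.symm v₀ with hx'
  set u := un hW x' with hu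
  have hpu : p u = 𝒢.one x' := p_un hW x'
  set χ := extChartAt 𝓘(ℝ, Eu m) u with hχ
  set y₀ := χ u with hy₀
  have hχT : IsOpen χ.target := isOpen_extChartAt_target _
  have hχs : Sm m (fun w => χ.symm w) χ.target := contMDiffOn_extChartAt_symm u
  have hχ₀ : χ.symm y₀ = u := extChartAt_to_inv (I := 𝓘(ℝ, Eu m)) u
  -- the source in the chart
  have hsrc : Sm n (fun w => 𝒢.src (p (χ.symm w))) χ.target := comp_sm hW.smooth_src hχs
  have hO₁ : IsOpen (χ.target ∩ (fun w => 𝒢.src (p (χ.symm w))) ⁻¹' ψ.source) :=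
    hsrc.continuousOn.isOpen_inter_preimage hχT (isOpen_extChartAt_source _)
  set O₁ := χ.target ∩ (fun w => 𝒢.src (p (χ.symm w))) ⁻¹' ψ.source with hO₁d
  have hsm : ContMDiffOn 𝓘(ℝ, Eu n) 𝓘(ℝ, Eu n) ∞ ψ ψ.source := by
    rw [hψ, ch, extChartAt_source]; exact contMDiffOn_extChartAt
  let vv : Eu m → Eu n := fun w => ψ (𝒢.src (p (χ.symm w)))
  have hvv : ContDiffOn ℝ ∞ vv O₁ :=
    contMDiffOn_iff_contDiffOn.mp (comp_smOn hsm (hsrc.mono inter_subset_left) (fun z hz => hz.2))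
  have hx'ψ : x' ∈ ψ.source := ψ.map_target (hZT _ hz)
  have hy₀O : y₀ ∈ O₁ := by
    refine ⟨mem_extChartAt_target _, ?_⟩
    change 𝒢.src (p (χ.symm y₀)) ∈ ψ.source
    rw [hχ₀, hpu, 𝒢.src_one]
    exact hx'ψ
  have hvv₀ : vv y₀ = v₀ := by
    change ψ (𝒢.src (p (χ.symm y₀))) = v₀
    rw [hχ₀, hpu, 𝒢.src_one]
    exact ψ.right_inv (hZT _ hz)
  -- the domain
  let hmap : Eu m × F → Eu n × F := fun q => (vv q.1, q.2)
  have hO₂ : IsOpen (O₁ ×ˢ (univ : Set F)) := hO₁.prod isOpen_univ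
  have hhm : ContDiffOn ℝ ∞ hmap (O₁ ×ˢ (univ : Set F)) :=
    (hvv.comp contDiff_fst.contDiffOn (fun q hq => hq.1)).prodMk contDiff_snd.contDiffOn
  set Z' : Set (Eu m × F) := (O₁ ×ˢ (univ : Set F)) ∩ hmap ⁻¹' Z with hZ'
  have hZ'o : IsOpen Z' := hhm.continuousOn.isOpen_inter_preimage hO₂ hZ
  have hz' : (y₀, b₀) ∈ Z' := by
    refine ⟨⟨hy₀O, mem_univ _⟩, ?_⟩
    change (vv y₀, b₀) ∈ Z
    rw [hvv₀]; exact hz
  have hhm' : ContDiffOn ℝ ∞ hmap Z' := hhm.mono inter_subset_left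
  -- the plots
  let f₁ : Eu m × F → P := fun q => χ.symm q.1
  have hf₁ : Sm m f₁ Z' :=
    hχs.comp_space contDiff_fst.contDiffOn (fun q hq => hq.1.1.1)
  let f₃ : Eu m × F → G := fun q => K (hmap q)
  have hf₃ : Pl m p f₃ Z' := hK.comp_space hZ'o hhm' (fun q hq => hq.2)
  have hf₁' : Pl m p (fun q => p (f₁ q)) Z' := pl_of_sm hZ'o hf₁
  have hcomp : ∀ q ∈ Z', 𝒢.src (p (f₁ q)) = 𝒢.tgt (f₃ q) := by
    intro q hq
    change 𝒢.src (p (χ.symm q.1)) = 𝒢.tgt (K (hmap q))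
    rw [hKt _ hq.2]
    exact (ψ.left_inv hq.1.1.2).symm
  have hF : Pl m p (fun q => 𝒢.mul (p (f₁ q)) (f₃ q)) Z' := hf₁'.mul hW hf₃ hcomp hZ'o
  obtain ⟨Z'', F', k1, k2, k3, k4⟩ := hF _ hz'
  -- the pull-back of the lift
  have hpull : ∀ q ∈ Z'' ∩ Z', ∀ a b : Eu m × F,
      pull Ω F' q a b = pull Ω (fun w => χ.symm w) q.1 a.1 b.1 := by
    intro q hq a b
    have e1 : pull Ω F' q a b = plv p Ω (fun q => 𝒢.mul (p (f₁ q)) (f₃ q)) q a b :=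
      (plv_eq hW k1 k3 k4 hq.1 a b).symm
    have e2 := plv_mul hW hZ'o hf₁' hf₃ hcomp hq.2 a b
    have e3 : plv p Ω (fun q => p (f₁ q)) q a b = pull Ω f₁ q a b :=
      plv_eq hW hZ'o hf₁ (fun _ _ => rfl) hq.2 a b
    have e4 : plv p Ω f₃ q a b = 0 := by
      have := plv_comp hW hK hZ'o hhm' hq.2 hq.2.2 a b
      rw [hKp _ hq.2.2] at this
      exact this
    have e5 : pull Ω f₁ q a b = pull Ω (fun w => χ.symm w) q.1 a.1 b.1 := by
      have := pull_comp (Ω := Ω) (f := fun w => χ.symm w) (h := (Prod.fst : Eu m × F → Eu m))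
        (y := q) (hχs.mdiff hχT hq.2.1.1.1) differentiableAt_fst a b
      rw [fderiv_fst] at this
      exact this
    rw [e1, e2, e3, e4, add_zero, e5]
  -- the inverse chart has bijective derivative
  have hbij : ∀ w ∈ χ.target,
      Function.Bijective (mfderiv 𝓘(ℝ, Eu m) 𝓘(ℝ, Eu m) (fun w => χ.symm w) w) := by
    intro w hw
    obtain ⟨L, hL⟩ := isInvertible_mfderivWithin_extChartAt_symm (I := 𝓘(ℝ, Eu m)) hw
    have h1 : mfderivWithin 𝓘(ℝ, Eu m) 𝓘(ℝ, Eu m) χ.symm (range 𝓘(ℝ, Eu m)) w =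
        mfderiv 𝓘(ℝ, Eu m) 𝓘(ℝ, Eu m) χ.symm w := by
      rw [ModelWithCorners.range_eq_univ, mfderivWithin_univ]
    change Function.Bijective (mfderiv 𝓘(ℝ, Eu m) 𝓘(ℝ, Eu m) χ.symm w)
    rw [← h1, ← hL]
    exact L.bijective
  have hnd : ∀ w ∈ χ.target, ∀ a : Eu m,
      (∀ b : Eu m, pull Ω (fun w => χ.symm w) w a b = 0) → a = 0 := by
    intro w hw a ha
    have h1 : (mfderiv 𝓘(ℝ, Eu m) 𝓘(ℝ, Eu m) (fun w => χ.symm w) w) a = 0 := by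
      apply hW.symplectic.nondeg (χ.symm w)
      intro c
      obtain ⟨b, hb⟩ := (hbij w hw).2 c
      rw [← hb]
      exact ha b
    exact (hbij w hw).1 (h1.trans (map_zero _).symm)
  -- vanishing of the partial derivative
  have hder : ∀ q ∈ Z'' ∩ Z', ∀ β : F,
      ((mfderiv 𝓘(ℝ, Eu m × F) 𝓘(ℝ, Eu m) F' q) ((0, β) : Eu m × F) : Eu m) = 0 := by
    intro q hq β
    let L : Eu m × F →L[ℝ] Eu m := mfderiv 𝓘(ℝ, Eu m × F) 𝓘(ℝ, Eu m) F' q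
    let B : Eu m →L[ℝ] Eu m →L[ℝ] ℝ := Ω (F' q)
    have hB : ∀ a b : Eu m × F, B (L a) (L b) = pull Ω (fun w => χ.symm w) q.1 a.1 b.1 :=
      fun a b => hpull q hq a b
    let T : Eu m →ₗ[ℝ] Eu m := L.toLinearMap.comp (LinearMap.inl ℝ (Eu m) F)
    have hT : ∀ w, T w = L (w, 0) := fun w => rfl
    have hTinj : Function.Injective T := by
      rw [injective_iff_map_eq_zero]
      intro w hw
      apply hnd q.1 hq.2.1.1.1 w
      intro b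
      rw [← hB (w, 0) (b, 0)]
      have : L (w, 0) = 0 := hw
      rw [this, map_zero]
      rfl
    have hTs : Function.Surjective T := LinearMap.injective_iff_surjective.mp hTinj
    change L (0, β) = 0
    apply hW.symplectic.nondeg (F' q)
    intro c
    obtain ⟨w, hw⟩ := hTs c
    have h1 := hB (0, β) (w, 0)
    change B (L (0, β)) c = 0
    rw [← hw, hT, h1]
    exact pull_zero_left _ _ _
  -- restrict to the line
  let ℓ : F → Eu m × F := fun b => (y₀, b)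
  have hℓ : ContDiff ℝ ∞ ℓ := contDiff_const.prodMk contDiff_id
  have hB : IsOpen (ℓ ⁻¹' (Z'' ∩ Z')) := (k1.inter hZ'o).preimage hℓ.continuous
  have hF'ℓ : Sm m (fun b => F' (ℓ b)) (ℓ ⁻¹' (Z'' ∩ Z')) :=
    k3.comp_space hℓ.contDiffOn (fun b hb => hb.1)
  have hconst := locally_const hB hF'ℓ (fun b hb β => by
    have hd : HasFDerivAt ℓ ((0 : F →L[ℝ] Eu m).prod (ContinuousLinearMap.id ℝ F)) b :=
      (hasFDerivAt_const _ _).prodMk (hasFDerivAt_id b)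
    have hc := mfderiv_comp (I := 𝓘(ℝ, F)) (I' := 𝓘(ℝ, Eu m × F)) (I'' := 𝓘(ℝ, Eu m)) b
      (g := F') (f := ℓ) (k3.mdiff k1 hb.1) hd.differentiableAt.mdifferentiableAt
    refine (DFunLike.congr_fun hc β).trans ?_
    rw [mfderiv_eq_fderiv]
    have e : fderiv ℝ ℓ b β = (0, β) := by rw [hd.fderiv]; rfl
    have e' := hder (ℓ b) hb β
    rw [← e] at e'
    exact e') (b := b₀) ⟨k2, hz'⟩
  filter_upwards [hconst, hB.mem_nhds (⟨k2, hz'⟩ : ℓ b₀ ∈ Z'' ∩ Z')] with b hb hbZ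
  have key : ∀ b, ℓ b ∈ Z'' ∩ Z' → p (F' (ℓ b)) = K (v₀, b) := by
    intro b hb
    rw [k4 _ hb.1]
    change 𝒢.mul (p (χ.symm y₀)) (K (vv y₀, b)) = K (v₀, b)
    have hb2 := hb.2.2
    change (vv y₀, b) ∈ Z at hb2
    rw [hvv₀] at hb2 ⊢
    rw [hχ₀, hpu]
    have h1 := 𝒢.one_mul (K (v₀, b))
    rw [hKt _ hb2] at h1
    exact h1
  rw [← key b hbZ, ← key b₀ ⟨k2, hz'⟩, hb]

lemma comm_src (𝒢 : Gpd M G) {g h : G} {x : M} (g1 : 𝒢.src g = x) (g2 : 𝒢.tgt g = x)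
    (h1 : 𝒢.src h = x) (h2 : 𝒢.tgt h = x) : 𝒢.src (𝒢.comm g h) = x := by
  let a : 𝒢.Iso x := ⟨g, g1, g2⟩
  let b : 𝒢.Iso x := ⟨h, h1, h2⟩
  have := (⁅a, b⁆).2.1
  rwa [𝒢.iso_comm_val] at this

lemma comm_tgt (𝒢 : Gpd M G) {g h : G} {x : M} (g1 : 𝒢.src g = x) (g2 : 𝒢.tgt g = x)
    (h1 : 𝒢.src h = x) (h2 : 𝒢.tgt h = x) : 𝒢.tgt (𝒢.comm g h) = x := by
  let a : 𝒢.Iso x := ⟨g, g1, g2⟩
  let b : 𝒢.Iso x := ⟨h, h1, h2⟩
  have := (⁅a, b⁆).2.2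
  rwa [𝒢.iso_comm_val] at this

variable {E : Type} [NormedAddCommGroup E] [NormedSpace ℝ E] [FiniteDimensional ℝ E]

/-- smoothness and vanishing pull-back of a commutator of two families of isotropy elements -/
lemma comm_facts (hW : WData n 𝒢 p Ω) {Z : Set E} (hZ : IsOpen Z) {f h : E → G}
    (hf : Pl m p f Z) (hh : Pl m p h Z) {y : E → M} (f1 : ∀ z ∈ Z, 𝒢.src (f z) = y z)
    (f2 : ∀ z ∈ Z, 𝒢.tgt (f z) = y z) (h1 : ∀ z ∈ Z, 𝒢.src (h z) = y z)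
    (h2 : ∀ z ∈ Z, 𝒢.tgt (h z) = y z) :
    Pl m p (fun z => 𝒢.comm (f z) (h z)) Z ∧
      ∀ z ∈ Z, ∀ u v, plv p Ω (fun z => 𝒢.comm (f z) (h z)) z u v = 0 := by
  have c1 : ∀ z ∈ Z, 𝒢.src (f z) = 𝒢.tgt (h z) := fun z hz => (f1 z hz).trans (h2 z hz).symm
  have s1 : Pl m p (fun z => 𝒢.mul (f z) (h z)) Z := hf.mul hW hh c1 hZ
  have si : Pl m p (fun z => 𝒢.inv (f z)) Z := hf.inv hW
  have si' : Pl m p (fun z => 𝒢.inv (h z)) Z := hh.inv hW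
  have c2 : ∀ z ∈ Z, 𝒢.src (𝒢.mul (f z) (h z)) = 𝒢.tgt (𝒢.inv (f z)) := fun z hz => by
    rw [𝒢.src_mul _ _ (c1 z hz), 𝒢.tgt_inv, h1 z hz, f1 z hz]
  have s2 : Pl m p (fun z => 𝒢.mul (𝒢.mul (f z) (h z)) (𝒢.inv (f z))) Z := s1.mul hW si c2 hZ
  have c3 : ∀ z ∈ Z, 𝒢.src (𝒢.mul (𝒢.mul (f z) (h z)) (𝒢.inv (f z))) =
      𝒢.tgt (𝒢.inv (h z)) := fun z hz => by
    rw [𝒢.src_mul _ _ (c2 z hz), 𝒢.tgt_inv, 𝒢.src_inv, h1 z hz, f2 z hz]
  have s3 : Pl m p (fun z => 𝒢.mul (𝒢.mul (𝒢.mul (f z) (h z)) (𝒢.inv (f z))) (𝒢.inv (h z))) Z :=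
    s2.mul hW si' c3 hZ
  refine ⟨s3, ?_⟩
  intro z hz u v
  have p1 := plv_mul hW hZ s2 si' c3 hz u v
  have p2 := plv_mul hW hZ s1 si c2 hz u v
  have p3 := plv_mul hW hZ hf hh c1 hz u v
  have p4 := plv_inv hW hZ hf hz u v
  have p5 := plv_inv hW hZ hh hz u v
  refine p1.trans ?_
  rw [p2, p3, p4, p5]
  ring

theorem comm_const (hW : WData n 𝒢 p Ω) {x : M} {a b : P} (A : IsoChart (toSpan hW) x a)
    (B : IsoChart (toSpan hW) x b) {a' : P} (haW : a' ∈ A.W) (hs : 𝒢.src (p a') = x)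
    (ht : 𝒢.tgt (p a') = x) : 𝒢.comm (p a') (p b) = 𝒢.comm (p a) (p b) := by
  set ψ := ch (n := n) x with hψ
  set U := A.U ∩ B.U with hU
  have hUo : IsOpen U := A.hU.inter B.hU
  set v₀ := ψ x with hv₀
  have hv₀U : v₀ ∈ U := ⟨A.x₀U, B.x₀U⟩
  set bl := Metric.ball (0 : A.F) A.ε with hbl
  have hblo : IsOpen bl := Metric.isOpen_ball
  set Z : Set (Eu n × A.F) := U ×ˢ bl with hZ
  have hZo : IsOpen Z := hUo.prod hblo
  let f : Eu n × A.F → P := A.S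
  let k : Eu n × A.F → P := fun q => B.S (q.1, 0)
  have hf : Sm m f Z := A.smooth.mono (prod_mono inter_subset_left subset_rfl)
  have hk : Sm m k Z := by
    refine B.smooth.comp_space (h := fun q : Eu n × A.F => ((q.1, 0) : Eu n × B.F)) ?_ ?_
    · exact (contDiff_fst.prodMk contDiff_const).contDiffOn
    · rintro ⟨v, b⟩ ⟨hv, hb⟩
      exact ⟨hv.2, Metric.mem_ball_self B.hε⟩
  have f1 : ∀ z ∈ Z, 𝒢.src (p (f z)) = ψ.symm z.1 := fun z hz => A.src_eq _ hz.1.1 _ hz.2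
  have f2 : ∀ z ∈ Z, 𝒢.tgt (p (f z)) = ψ.symm z.1 := fun z hz => A.tgt_eq _ hz.1.1 _ hz.2
  have k1 : ∀ z ∈ Z, 𝒢.src (p (k z)) = ψ.symm z.1 := fun z hz =>
    B.src_eq _ hz.1.2 _ (Metric.mem_ball_self B.hε)
  have k2 : ∀ z ∈ Z, 𝒢.tgt (p (k z)) = ψ.symm z.1 := fun z hz =>
    B.tgt_eq _ hz.1.2 _ (Metric.mem_ball_self B.hε)
  obtain ⟨hC, hCpull⟩ := comm_facts hW hZo (pl_of_sm hZo hf) (pl_of_sm hZo hk) f1 f2 k1 k2
  have hloc : ∀ b' ∈ bl, ∀ᶠ y in 𝓝 b', 𝒢.comm (p (f (v₀, y))) (p (k (v₀, y))) =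
      𝒢.comm (p (f (v₀, b'))) (p (k (v₀, b'))) := by
    intro b' hb'
    exact family_loc_const hW x hZo hC (fun z hz => A.UT hz.1.1)
      (fun z hz => comm_tgt 𝒢 (f1 z hz) (f2 z hz) (k1 z hz) (k2 z hz)) hCpull ⟨hv₀U, hb'⟩
  obtain ⟨b', hb', hSb'⟩ := A.cover a' haW hs ht
  have h0 : (0 : A.F) ∈ bl := Metric.mem_ball_self A.hε
  have hcst := const_of_locally hblo (convex_ball (0 : A.F) A.ε).isPreconnected hloc h0 hb'
  change 𝒢.comm (p (A.S (v₀, b'))) (p (B.S (v₀, 0))) =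
    𝒢.comm (p (A.S (v₀, 0))) (p (B.S (v₀, 0))) at hcst
  rw [hSb', A.base, B.base] at hcst
  exact hcst

theorem countable_comm [SecondCountableTopology P] (hW : WData n 𝒢 p Ω) {x : M}
    (hx : Good (toSpan hW) x) :
    ((commutator (𝒢.Iso x) : Subgroup (𝒢.Iso x)) : Set (𝒢.Iso x)).Countable := by
  classical
  let I : Set P := {a | 𝒢.src (p a) = x ∧ 𝒢.tgt (p a) = x}
  let A : ∀ a, a ∈ I → IsoChart (toSpan hW) x a := fun a ha => (hx a ha.1 ha.2).some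
  obtain ⟨t, htI, htc, hcov⟩ := TopologicalSpace.countable_cover_nhdsWithin
    (f := fun a => if ha : a ∈ I then (A a ha).W else univ) (s := I)
    (fun a ha => by
      rw [dif_pos ha]
      exact mem_nhdsWithin_of_mem_nhds ((A a ha).hW.mem_nhds (A a ha).g₀W))
  refine Pool.Agent.Helper78.SG.countable_commutator {g : 𝒢.Iso x | g.1 ∈ p '' t} ?_ ?_
  · exact (htc.image p).preimage_of_injOn (Subtype.val_injective.injOn)
  · rintro ⟨g, hg1, hg2⟩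
    obtain ⟨a, rfl⟩ := hW.surj g
    have haI : a ∈ I := ⟨hg1, hg2⟩
    have h1 := hcov haI
    simp only [mem_iUnion, exists_prop] at h1
    obtain ⟨s, hst, hgs⟩ := h1
    have hsI := htI hst
    rw [dif_pos hsI] at hgs
    refine ⟨⟨p s, hsI⟩, ⟨s, hst, rfl⟩, ?_⟩
    rintro ⟨k, hk1, hk2⟩
    obtain ⟨b, rfl⟩ := hW.surj k
    apply Subtype.ext
    rw [𝒢.iso_comm_val, 𝒢.iso_comm_val]
    exact comm_const hW (A s hsI) (A b ⟨hk1, hk2⟩) hgs hg1 hg2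

end comm

end H91WG

end
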