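import Pool.Agent.Helper91.WG.Vanish

open scoped Manifold ContDiff Topology commutatorElement
open Set

noncomputable section

namespace H91WG

open H91PG

set_option linter.unusedSectionVars false

section desc

variable {n m : ℕ} {M G P H : Type*} [TopologicalSpace M] [ChartedSpace (Eu n) M]
  [TopologicalSpace P] [ChartedSpace (Eu m) P] [TopologicalSpace H] [ChartedSpace (Eu m) H]
  [IsManifold 𝓘(ℝ, Eu n) ∞ M] [IsManifold 𝓘(ℝ, Eu m) ∞ P] [IsManifold 𝓘(ℝ, Eu m) ∞ H]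
  {𝒢 : Gpd M G} {ℋ : Gpd M H} {p : P → G} {q : G → H} {Ω : FormField m P}
variable {E : Type} [NormedAddCommGroup E] [NormedSpace ℝ E]

/-- Two plots with the same image under `q` have the same pull-back. -/
theorem plv_eq_of_q [FiniteDimensional ℝ E] [T2Space M] [SecondCountableTopology P]
    (hW : WData n 𝒢 p Ω) (hq : QData (m := m) (d := m) 𝒢 ℋ p q)
    {Z : Set E} (hZ : IsOpen Z) {f f' : E → G}
    (hf : Pl m p f Z) (hf' : Pl m p f' Z) (h : ∀ z ∈ Z, q (f z) = q (f' z)) {z : E} (hz : z ∈ Z)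
    (u v : E) : plv p Ω f z u v = plv p Ω f' z u v := by
  have hfib : ∀ z ∈ Z, 𝒢.src (f z) = 𝒢.src (f' z) ∧ 𝒢.tgt (f z) = 𝒢.tgt (f' z) ∧
      ∃ k ∈ commutator (𝒢.Iso (𝒢.tgt (f' z))), 𝒢.mul k.1 (f' z) = f z := fun z hz =>
    (hq.alg.fiber _ _).mp (h z hz)
  have hi : Pl m p (fun z => 𝒢.inv (f' z)) Z := hf'.inv hW
  have hc : ∀ z ∈ Z, 𝒢.src (f z) = 𝒢.tgt (𝒢.inv (f' z)) := fun z hz => by
    rw [𝒢.tgt_inv, (hfib z hz).1]
  have hk : Pl m p (fun z => 𝒢.mul (f z) (𝒢.inv (f' z))) Z := hf.mul hW hi hc hZ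
  have hki : ∀ z ∈ Z, InC 𝒢 (𝒢.tgt (f' z)) (𝒢.mul (f z) (𝒢.inv (f' z))) := fun z hz => by
    obtain ⟨h1, h2, k, hk, hkf⟩ := hfib z hz
    refine ⟨k, hk, ?_⟩
    rw [← hkf, 𝒢.mul_assoc _ _ _ k.2.1 (𝒢.tgt_inv _).symm, 𝒢.mul_inv]
    have := 𝒢.mul_one k.1
    rw [k.2.1] at this
    exact this.symm
  have h0 := vanish hW hq hZ hk (hf'.tgt hW) hki hz u v
  rw [plv_mul hW hZ hf hi hc hz, plv_inv hW hZ hf' hz] at h0
  linarith

/-- The derivative of `q ∘ p`, as a map of Euclidean spaces. -/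
def Dq (p : P → G) (q : G → H) (g : P) : Eu m →L[ℝ] Eu m :=
  mfderiv 𝓘(ℝ, Eu m) 𝓘(ℝ, Eu m) (fun a => q (p a)) g

/-- The derivative of a map from a vector space. -/
def Df {X : Type*} [TopologicalSpace X] [ChartedSpace (Eu m) X] (f : E → X) (z : E) :
    E →L[ℝ] Eu m := mfderiv 𝓘(ℝ, E) 𝓘(ℝ, Eu m) f z

/-- The form, as a map of Euclidean spaces. -/
def Om {X : Type*} [TopologicalSpace X] [ChartedSpace (Eu m) X] (Ω : FormField m X) (g : X) :
    Eu m →L[ℝ] Eu m →L[ℝ] ℝ := Ω g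

lemma pull_eq {X : Type*} [TopologicalSpace X] [ChartedSpace (Eu m) X] (Ω : FormField m X)
    (f : E → X) (z u v : E) : pull Ω f z u v = Om Ω (f z) (Df f z u) (Df f z v) := rfl

lemma Dq_surj (hq : QData (m := m) (d := m) 𝒢 ℋ p q) (g : P) :
    Function.Surjective (Dq (m := m) p q g) := hq.sub g

lemma Dq_inj (hq : QData (m := m) (d := m) 𝒢 ℋ p q) (g : P) :
    Function.Injective (Dq (m := m) p q g) := by
  have h1 : Function.Surjective (Dq (m := m) p q g).toLinearMap := hq.sub g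
  exact LinearMap.injective_iff_surjective.mpr h1

/-- The inverse of the derivative of `q ∘ p`. -/
def Di (hq : QData (m := m) (d := m) 𝒢 ℋ p q) (g : P) : Eu m →L[ℝ] Eu m :=
  (LinearEquiv.ofBijective (Dq (m := m) p q g).toLinearMap
    ⟨Dq_inj hq g, Dq_surj hq g⟩).symm.toLinearMap.toContinuousLinearMap

lemma Di_Dq (hq : QData (m := m) (d := m) 𝒢 ℋ p q) (g : P) (u : Eu m) :
    Di hq g (Dq p q g u) = u :=
  (LinearEquiv.ofBijective (Dq (m := m) p q g).toLinearMap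
    ⟨Dq_inj hq g, Dq_surj hq g⟩).symm_apply_apply u

lemma chain (hq : QData (m := m) (d := m) 𝒢 ℋ p q) {Z : Set E} (hZ : IsOpen Z) {f : E → P}
    {F : E → H}
    (hf : Sm m f Z) (h : ∀ z ∈ Z, q (p (f z)) = F z) {z : E} (hz : z ∈ Z) (u : E) :
    Df (m := m) F z u = Dq (m := m) p q (f z) (Df (m := m) f z u) := by
  have h1 := mfderiv_comp (I := 𝓘(ℝ, E)) (I' := 𝓘(ℝ, Eu m)) (I'' := 𝓘(ℝ, Eu m)) z
    (g := fun a => q (p a)) (f := f) (hq.smooth.mdifferentiableAt (by simp)) (hf.mdiff hZ hz)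
  have h2 : ((fun a => q (p a)) ∘ f) =ᶠ[𝓝 z] F := by
    filter_upwards [hZ.mem_nhds hz] with y hy
    exact h y hy
  rw [h2.mfderiv_eq] at h1
  exact DFunLike.congr_fun h1 u

lemma qp_surj (hW : WData n 𝒢 p Ω) (hq : QData (m := m) (d := m) 𝒢 ℋ p q) :
    Function.Surjective (fun a => q (p a)) := hq.alg.surjective.comp hW.surj

/-- The form on the quotient. -/
def OmH (hW : WData n 𝒢 p Ω) (hq : QData (m := m) (d := m) 𝒢 ℋ p q) (h : H) :
    Eu m →L[ℝ] Eu m →L[ℝ] ℝ :=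
  (Om Ω (Function.surjInv (qp_surj hW hq) h)).bilinearComp
    (Di hq (Function.surjInv (qp_surj hW hq) h)) (Di hq (Function.surjInv (qp_surj hW hq) h))

/-- The form field on the quotient. -/
def quotForm (hW : WData n 𝒢 p Ω) (hq : QData (m := m) (d := m) 𝒢 ℋ p q) : FormField m H :=
  fun h => OmH hW hq h

theorem quotForm_q [T2Space M] [SecondCountableTopology P] (hW : WData n 𝒢 p Ω)
    (hq : QData (m := m) (d := m) 𝒢 ℋ p q) (g : P) (u v : Eu m) :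
    Om (quotForm hW hq) (q (p g)) (Dq p q g u) (Dq p q g v) = Om Ω g u v := by
  set h := q (p g) with hh
  set g' := Function.surjInv (qp_surj hW hq) h with hg'
  have hqg' : q (p g') = h := Function.surjInv_eq (qp_surj hW hq) h
  -- the inverse chart at `g`
  set χ := extChartAt 𝓘(ℝ, Eu m) g with hχ
  have hT : IsOpen χ.target := isOpen_extChartAt_target _
  have hf : Sm m (fun w => χ.symm w) χ.target := contMDiffOn_extChartAt_symm g
  have h0 : χ.symm (χ g) = g := extChartAt_to_inv (I := 𝓘(ℝ, Eu m)) g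
  obtain ⟨Z, f', hZ, hz₀, hsub, hf', hf'0, hf'q⟩ := local_lift hq.smooth g' (hq.sub _)
    χ.target (fun w => q (p (χ.symm w))) hT (comp_sm hq.smooth hf) (χ g)
    (mem_extChartAt_target _) (by rw [h0, hqg'])
  have hfZ : Sm m (fun w => χ.symm w) Z := hf.mono hsub
  have hpe : ∀ a b, pull Ω (fun w => χ.symm w) (χ g) a b = pull Ω f' (χ g) a b := fun a b => by
    have e1 := plv_eq_of_q hW hq hZ (pl_of_sm hZ hfZ) (pl_of_sm hZ hf')
      (fun z hz => (hf'q z hz).symm) hz₀ a b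
    rwa [plv_eq hW hZ hfZ (fun _ _ => rfl) hz₀, plv_eq hW hZ hf' (fun _ _ => rfl) hz₀] at e1
  have hbij : Function.Surjective (Df (m := m) (fun w => χ.symm w) (χ g)) := by
    obtain ⟨L, hL⟩ := isInvertible_mfderivWithin_extChartAt_symm (I := 𝓘(ℝ, Eu m))
      (mem_extChartAt_target (I := 𝓘(ℝ, Eu m)) g)
    have h1 : mfderivWithin 𝓘(ℝ, Eu m) 𝓘(ℝ, Eu m) χ.symm (range 𝓘(ℝ, Eu m)) (χ g) =
        mfderiv 𝓘(ℝ, Eu m) 𝓘(ℝ, Eu m) χ.symm (χ g) := by
      rw [ModelWithCorners.range_eq_univ, mfderivWithin_univ]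
    change Function.Surjective (mfderiv 𝓘(ℝ, Eu m) 𝓘(ℝ, Eu m) χ.symm (χ g))
    rw [← h1, ← hL]
    exact L.surjective
  obtain ⟨a, ha⟩ := hbij u
  obtain ⟨b, hb⟩ := hbij v
  have key : ∀ a, Dq p q g (Df (m := m) (fun w => χ.symm w) (χ g) a) =
      Dq p q g' (Df f' (χ g) a) := by
    intro a
    have e1 := chain hq hZ (F := fun w => q (p (χ.symm w))) hfZ (fun z hz => rfl) hz₀ a
    have e2 := chain hq hZ (F := fun w => q (p (χ.symm w))) hf' hf'q hz₀ a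
    rw [hf'0] at e2
    rw [h0] at e1
    rw [← e1, ← e2]
  have e4 : Om (quotForm hW hq) h (Dq p q g u) (Dq p q g v) =
      Om Ω g' (Di hq g' (Dq p q g u)) (Di hq g' (Dq p q g v)) := rfl
  rw [e4, ← ha, ← hb, key a, key b, Di_Dq, Di_Dq]
  have h5 := hpe a b
  rw [pull_eq, pull_eq, hf'0, h0] at h5
  exact h5.symm

/-- pull-backs of the quotient form are computed by local lifts -/
theorem pull_lift [T2Space M] [SecondCountableTopology P] (hW : WData n 𝒢 p Ω)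
    (hq : QData (m := m) (d := m) 𝒢 ℋ p q) {Z : Set E} (hZ : IsOpen Z) {F : E → H}
    {f : E → P} (hf : Sm m f Z) (h : ∀ z ∈ Z, q (p (f z)) = F z) {z : E} (hz : z ∈ Z)
    (u v : E) :
    pull (quotForm hW hq) F z u v = pull Ω f z u v := by
  rw [pull_eq, pull_eq, chain hq hZ hf h hz u, chain hq hZ hf h hz v, ← h z hz]
  exact quotForm_q hW hq _ _ _

lemma exists_lift (hW : WData n 𝒢 p Ω) (hq : QData (m := m) (d := m) 𝒢 ℋ p q) {Z : Set E}
    (hZ : IsOpen Z) {F : E → H} (hF : Sm m F Z) {z₀ : E} (hz₀ : z₀ ∈ Z) :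
    ∃ (Z' : Set E) (f : E → P), IsOpen Z' ∧ z₀ ∈ Z' ∧ Z' ⊆ Z ∧ Sm m f Z' ∧
      ∀ z ∈ Z', q (p (f z)) = F z := by
  obtain ⟨g₀, hg₀⟩ := qp_surj hW hq (F z₀)
  obtain ⟨Z', f, h1, h2, h3, h4, -, h5⟩ := local_lift hq.smooth g₀ (hq.sub _) Z F hZ hF z₀
    hz₀ hg₀.symm
  exact ⟨Z', f, h1, h2, h3, h4, h5⟩

theorem quot_symplectic [T2Space M] [SecondCountableTopology P] (hW : WData n 𝒢 p Ω)
    (hq : QData (m := m) (d := m) 𝒢 ℋ p q) : IsSymplectic (quotForm hW hq) where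
  alt h u := by
    obtain ⟨g, rfl⟩ := qp_surj hW hq h
    obtain ⟨a, ha⟩ := Dq_surj hq g u
    have h1 := quotForm_q hW hq g a a
    rw [ha] at h1
    exact h1.trans (hW.symplectic.alt g a)
  nondeg h u hu := by
    obtain ⟨g, rfl⟩ := qp_surj hW hq h
    obtain ⟨a, ha⟩ := Dq_surj hq g u
    have h2 : a = 0 := by
      refine hW.symplectic.nondeg g a ?_
      refine fun (b : Eu m) => ?_
      have h1 := quotForm_q hW hq g a b
      rw [ha] at h1
      exact h1.symm.trans (hu _)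
    rw [← ha, h2, map_zero]
    rfl
  smooth E _ _ _ Z F hZ hF u v := by
    intro z₀ hz₀
    obtain ⟨Z', f, h1, h2, h3, h4, h5⟩ := exists_lift hW hq hZ hF hz₀
    have h6 : ContDiffOn ℝ ∞ (fun z => pull (quotForm hW hq) F z u v) Z' :=
      (hW.symplectic.smooth E Z' f h1 h4 u v).congr
        (fun z hz => pull_lift hW hq h1 h4 h5 hz u v)
    exact (h6.contDiffAt (h1.mem_nhds h2)).contDiffWithinAt
  closed E _ _ _ Z F hZ hF z₀ hz₀ u v w := by
    obtain ⟨Z', f, h1, h2, h3, h4, h5⟩ := exists_lift hW hq hZ hF hz₀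
    have h6 : ∀ a b : E, fderiv ℝ (fun y => pull (quotForm hW hq) F y a b) z₀ =
        fderiv ℝ (fun y => pull Ω f y a b) z₀ := fun a b => by
      apply Filter.EventuallyEq.fderiv_eq
      filter_upwards [h1.mem_nhds h2] with z hz
      exact pull_lift hW hq h1 h4 h5 hz a b
    rw [h6, h6, h6]
    exact hW.symplectic.closed E Z' f h1 h4 z₀ h2 u v w

/-- multiplicativity of the quotient form -/
theorem quot_mult [T2Space M] [SecondCountableTopology P] (hW : WData n 𝒢 p Ω)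
    (hq : QData (m := m) (d := m) 𝒢 ℋ p q) {E : Type} [NormedAddCommGroup E] [NormedSpace ℝ E]
    [FiniteDimensional ℝ E] (Z : Set E) (F K : E → H) (hZ : IsOpen Z) (hF : Sm m F Z)
    (hK : Sm m K Z) (hc : ∀ z ∈ Z, ℋ.src (F z) = ℋ.tgt (K z)) (z₀ : E) (hz₀ : z₀ ∈ Z) (u v : E) :
    pull (quotForm hW hq) (fun y => ℋ.mul (F y) (K y)) z₀ u v =
      pull (quotForm hW hq) F z₀ u v + pull (quotForm hW hq) K z₀ u v := by
  obtain ⟨Z₁, f, h1, h2, h3, h4, h5⟩ := exists_lift hW hq hZ hF hz₀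
  obtain ⟨Z₂, k, k1, k2, k3, k4, k5⟩ := exists_lift hW hq hZ hK hz₀
  have hZ' : IsOpen (Z₁ ∩ Z₂) := h1.inter k1
  have hf : Sm m f (Z₁ ∩ Z₂) := h4.mono inter_subset_left
  have hk : Sm m k (Z₁ ∩ Z₂) := k4.mono inter_subset_right
  have hcc : ∀ z ∈ Z₁ ∩ Z₂, 𝒢.src (p (f z)) = 𝒢.tgt (p (k z)) := fun z hz => by
    rw [← hq.alg.src_map, ← hq.alg.tgt_map, h5 z hz.1, k5 z hz.2, hc z (h3 hz.1)]
  obtain ⟨Z₃, g, l1, l2, l3, l4⟩ := hW.plot_mul E _ f k hZ' hf hk hcc z₀ ⟨h2, k2⟩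
  have hZ'' : IsOpen ((Z₁ ∩ Z₂) ∩ Z₃) := hZ'.inter l1
  have hz'' : z₀ ∈ (Z₁ ∩ Z₂) ∩ Z₃ := ⟨⟨h2, k2⟩, l2⟩
  rw [pull_lift hW hq hZ'' (l3.mono inter_subset_right) (F := fun y => ℋ.mul (F y) (K y))
      (fun z hz => by rw [l4 z hz.2, hq.alg.map_mul _ _ (hcc z hz.1), h5 z hz.1.1,
        k5 z hz.1.2]) hz'' u v,
    hW.mult E ((Z₁ ∩ Z₂) ∩ Z₃) f k g hZ'' (hf.mono inter_subset_left)
      (hk.mono inter_subset_left) (l3.mono inter_subset_right) (fun z hz => hcc z hz.1)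
      (fun z hz => l4 z hz.2) z₀ hz'' u v,
    pull_lift hW hq hZ'' (hf.mono inter_subset_left) (fun z hz => h5 z hz.1.1) hz'' u v,
    pull_lift hW hq hZ'' (hk.mono inter_subset_left) (fun z hz => k5 z hz.1.2) hz'' u v]

end desc

section final

variable {n m d : ℕ} {M G P H : Type*} [TopologicalSpace M] [ChartedSpace (Eu n) M]
  [TopologicalSpace P] [ChartedSpace (Eu m) P] [TopologicalSpace H] [ChartedSpace (Eu d) H]
  [IsManifold 𝓘(ℝ, Eu n) ∞ M] [IsManifold 𝓘(ℝ, Eu m) ∞ P] [IsManifold 𝓘(ℝ, Eu d) ∞ H]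
  [T2Space M] [SecondCountableTopology P]

/-- The main theorem. -/
theorem main (𝒢 : Gpd M G) (ℋ : Gpd M H) (p : P → G) (q : G → H) (Ω : FormField m P)
    (hW : WData n 𝒢 p Ω) (hq : QData (m := m) (d := d) 𝒢 ℋ p q) :
    ∃ Ω' : FormField d H, IsSymplectic Ω' ∧
      (∀ (E : Type) [NormedAddCommGroup E] [NormedSpace ℝ E] [FiniteDimensional ℝ E]
        (Z : Set E) (f h : E → H), IsOpen Z → Sm d f Z → Sm d h Z →
        (∀ z ∈ Z, ℋ.src (f z) = ℋ.tgt (h z)) → ∀ z ∈ Z, ∀ u v,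
        pull Ω' (fun y => ℋ.mul (f y) (h y)) z u v = pull Ω' f z u v + pull Ω' h z u v) ∧
      ∀ (a : P) (u v : TangentSpace 𝓘(ℝ, Eu m) a),
        Ω' (q (p a)) (mfderiv 𝓘(ℝ, Eu m) 𝓘(ℝ, Eu d) (fun a => q (p a)) a u)
          (mfderiv 𝓘(ℝ, Eu m) 𝓘(ℝ, Eu d) (fun a => q (p a)) a v) = Ω a u v := by
  by_cases hG : Nonempty G
  · obtain ⟨g₁⟩ := hG
    obtain rfl : d = m := dim_eq hW hq g₁
    exact ⟨quotForm hW hq, quot_symplectic hW hq, fun E _ _ _ Z f h hZ hf hh hc z hz u v =>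
      quot_mult hW hq Z f h hZ hf hh hc z hz u v, fun g u v => quotForm_q hW hq g u v⟩
  · have hH : IsEmpty H := ⟨fun h => hG ⟨(hq.alg.surjective h).choose⟩⟩
    refine ⟨fun h => hH.elim h, ⟨fun h => hH.elim h, fun h => hH.elim h, ?_, ?_⟩, ?_,
      fun g => (hG ⟨p g⟩).elim⟩
    · intro E _ _ _ Z f
      exact hH.elim (f 0)
    · intro E _ _ _ Z f
      exact hH.elim (f 0)
    · intro E _ _ _ Z f
      exact hH.elim (f 0)

end final

end H91WG

end
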