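import Pool.Agent.Helper91.WG.Comm

open scoped Manifold ContDiff Topology commutatorElement
open Set

noncomputable section

namespace H91WG

open H91PG

set_option linter.unusedSectionVars false

section lift

variable {m d : ℕ} {G H : Type*} [TopologicalSpace G] [ChartedSpace (Eu m) G]
  [IsManifold 𝓘(ℝ, Eu m) ∞ G]
  [TopologicalSpace H] [ChartedSpace (Eu d) H] [IsManifold 𝓘(ℝ, Eu d) ∞ H]
variable {E : Type} [NormedAddCommGroup E] [NormedSpace ℝ E]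

/-- local lifting of maps along a submersion -/
theorem local_lift {q : G → H} (hq : ContMDiff 𝓘(ℝ, Eu m) 𝓘(ℝ, Eu d) ∞ q) (g₀ : G)
    (hs : Function.Surjective (mfderiv 𝓘(ℝ, Eu m) 𝓘(ℝ, Eu d) q g₀)) :
    ∀ (Z : Set E) (f : E → H), IsOpen Z → Sm d f Z → ∀ z₀ ∈ Z, f z₀ = q g₀ →
      ∃ (Z' : Set E) (f' : E → G), IsOpen Z' ∧ z₀ ∈ Z' ∧ Z' ⊆ Z ∧ Sm m f' Z' ∧ f' z₀ = g₀ ∧
        ∀ z ∈ Z', q (f' z) = f z := by
  intro Z f hZ hf z₀ hz₀ hfz
  obtain ⟨N⟩ := nform_of_submersion hq g₀ hs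
  set ψ := extChartAt 𝓘(ℝ, Eu d) (q g₀) with hψ
  have hfc : ContinuousOn f Z := hf.continuousOn
  have hfψ : IsOpen (Z ∩ f ⁻¹' ψ.source) := hfc.isOpen_inter_preimage hZ (isOpen_extChartAt_source _)
  have hsm : ContMDiffOn 𝓘(ℝ, Eu d) 𝓘(ℝ, Eu d) ∞ ψ ψ.source := by
    rw [hψ, extChartAt_source]; exact contMDiffOn_extChartAt
  have hψf : Sm d (fun z => ψ (f z)) (Z ∩ f ⁻¹' ψ.source) :=
    comp_smOn hsm (hf.mono inter_subset_left) (fun z hz => hz.2)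
  have hψf' : ContDiffOn ℝ ∞ (fun z => ψ (f z)) (Z ∩ f ⁻¹' ψ.source) :=
    contMDiffOn_iff_contDiffOn.mp hψf
  let Z' : Set E := (Z ∩ f ⁻¹' ψ.source) ∩ (fun z => ψ (f z)) ⁻¹' N.U
  have hZ' : IsOpen Z' := hψf'.continuousOn.isOpen_inter_preimage hfψ N.hU
  have hU0 : ψ (f z₀) = rd (d := d) (q g₀) q g₀ := by rw [hfz]; rfl
  have hz₀' : z₀ ∈ Z' := by
    refine ⟨⟨hz₀, ?_⟩, ?_⟩
    · change f z₀ ∈ ψ.source
      rw [hfz]; exact mem_extChartAt_source _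
    · change ψ (f z₀) ∈ N.U
      rw [hU0]; exact N.g₀U
  refine ⟨Z', fun z => N.Ξ (ψ (f z), 0), hZ', hz₀', fun z hz => hz.1.1, ?_, ?_, ?_⟩
  · refine N.smooth.comp_space (h := fun z => ((ψ (f z), 0) : Eu d × N.F)) ?_ ?_
    · exact (hψf'.mono inter_subset_left).prodMk contDiffOn_const
    · intro z hz
      exact ⟨hz.2, N.zero_mem⟩
  · change N.Ξ (ψ (f z₀), 0) = g₀
    rw [hU0]; exact N.Ξ₀
  · intro z hz
    have h1 := N.right1 _ hz.2 _ N.zero_mem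
    have h2 := N.WO (N.mapW _ hz.2 _ N.zero_mem)
    exact ψ.injOn h2 hz.1.2 h1

theorem local_inj {q : G → H} (hq : ContMDiff 𝓘(ℝ, Eu m) 𝓘(ℝ, Eu d) ∞ q) (g₀ : G)
    (hs : Function.Surjective (mfderiv 𝓘(ℝ, Eu m) 𝓘(ℝ, Eu d) q g₀)) (hmd : d = m) :
    ∃ W : Set G, IsOpen W ∧ g₀ ∈ W ∧ InjOn q W := by
  obtain ⟨N⟩ := nform_of_submersion hq g₀ hs
  have hF : Module.finrank ℝ N.F = 0 := by
    have h1 := N.dim
    have h2 : Module.finrank ℝ (Eu d) = d := by simp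
    rw [h2] at h1
    omega
  have hsub : Subsingleton N.F := Module.finrank_zero_iff.mp hF
  refine ⟨N.W, N.hW, N.g₀W, ?_⟩
  intro g hg h hh hgh
  have h1 := N.left g hg
  have h2 := N.left h hh
  have h3 : rd (d := d) (q g₀) q g = rd (d := d) (q g₀) q h := by
    rw [rd, rd, hgh]
  rw [← h1, ← h2, h3, Subsingleton.elim (N.κ g) (N.κ h)]

end lift

/-- The data of the smooth quotient. -/
structure QData {m d : ℕ} {M G P H : Type*}
    [TopologicalSpace P] [ChartedSpace (Eu m) P] [TopologicalSpace H] [ChartedSpace (Eu d) H]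
    (𝒢 : Gpd M G) (ℋ : Gpd M H) (p : P → G) (q : G → H) : Prop where
  alg : IsAbelianization 𝒢 ℋ q
  smooth : ContMDiff 𝓘(ℝ, Eu m) 𝓘(ℝ, Eu d) ∞ (fun a => q (p a))
  sub : ∀ a, Function.Surjective (mfderiv 𝓘(ℝ, Eu m) 𝓘(ℝ, Eu d) (fun a => q (p a)) a)

section inc

variable {M G H : Type*} (𝒢 : Gpd M G)

/-- `g` is an element of the commutator subgroup of the isotropy group at `y`. -/
def InC (y : M) (g : G) : Prop := ∃ k ∈ commutator (𝒢.Iso y), k.1 = g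

variable {𝒢} {ℋ : Gpd M H} {q : G → H}

lemma InC.src_eq {y : M} {g : G} (h : InC 𝒢 y g) : 𝒢.src g = y := by
  obtain ⟨k, -, rfl⟩ := h; exact k.2.1

lemma InC.tgt_eq {y : M} {g : G} (h : InC 𝒢 y g) : 𝒢.tgt g = y := by
  obtain ⟨k, -, rfl⟩ := h; exact k.2.2

lemma inC_one (y : M) : InC 𝒢 y (𝒢.one y) := ⟨1, one_mem _, rfl⟩

lemma InC.mul {y : M} {g h : G} (hg : InC 𝒢 y g) (hh : InC 𝒢 y h) : InC 𝒢 y (𝒢.mul g h) := by
  obtain ⟨k, hk, rfl⟩ := hg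
  obtain ⟨l, hl, rfl⟩ := hh
  exact ⟨k * l, mul_mem hk hl, rfl⟩

lemma InC.inv {y : M} {g : G} (hg : InC 𝒢 y g) : InC 𝒢 y (𝒢.inv g) := by
  obtain ⟨k, hk, rfl⟩ := hg
  exact ⟨k⁻¹, inv_mem hk, rfl⟩

lemma inC_comm {y : M} {g h : G} (g1 : 𝒢.src g = y) (g2 : 𝒢.tgt g = y) (h1 : 𝒢.src h = y)
    (h2 : 𝒢.tgt h = y) : InC 𝒢 y (𝒢.comm g h) := by
  let a : 𝒢.Iso y := ⟨g, g1, g2⟩
  let b : 𝒢.Iso y := ⟨h, h1, h2⟩
  exact ⟨⁅a, b⁆, Subgroup.commutator_mem_commutator (Subgroup.mem_top _) (Subgroup.mem_top _),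
    rfl⟩

lemma inC_iff (hq : IsAbelianization 𝒢 ℋ q) {y : M} {g : G} :
    InC 𝒢 y g ↔ q g = q (𝒢.one y) := by
  constructor
  · rintro ⟨k, hk, rfl⟩
    rw [hq.fiber]
    refine ⟨by rw [k.2.1, 𝒢.src_one], by rw [k.2.2, 𝒢.tgt_one], ?_⟩
    have key : ∀ (y' : M) (_ : y' = y), ∃ k' ∈ commutator (𝒢.Iso y'),
        𝒢.mul k'.1 (𝒢.one y) = k.1 := by
      rintro y' rfl
      refine ⟨k, hk, ?_⟩
      have := 𝒢.mul_one k.1
      rwa [k.2.1] at this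
    exact key _ (𝒢.tgt_one y)
  · intro h
    rw [hq.fiber] at h
    obtain ⟨h1, h2, h3⟩ := h
    rw [𝒢.src_one] at h1
    rw [𝒢.tgt_one] at h2
    have key : ∀ (y' : M) (_ : y' = y), (∃ k' ∈ commutator (𝒢.Iso y'),
        𝒢.mul k'.1 (𝒢.one y) = g) → InC 𝒢 y g := by
      rintro y' rfl ⟨k, hk, hkg⟩
      refine ⟨k, hk, ?_⟩
      have := 𝒢.mul_one k.1
      rw [k.2.1] at this
      rw [← this, hkg]
    exact key _ (𝒢.tgt_one y) h3

end inc

section etale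

variable {n m d : ℕ} {M G P H : Type*} [TopologicalSpace M] [ChartedSpace (Eu n) M]
  [TopologicalSpace P] [ChartedSpace (Eu m) P] [TopologicalSpace H] [ChartedSpace (Eu d) H]
  [IsManifold 𝓘(ℝ, Eu n) ∞ M] [IsManifold 𝓘(ℝ, Eu m) ∞ P] [IsManifold 𝓘(ℝ, Eu d) ∞ H]
  {𝒢 : Gpd M G} {ℋ : Gpd M H} {p : P → G} {q : G → H} {Ω : FormField m P}

theorem dim_eq [T2Space M] [SecondCountableTopology P] (hW : WData n 𝒢 p Ω)
    (hq : QData (m := m) (d := d) 𝒢 ℋ p q) (g₁ : G) : d = m := by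
  have hne : Nonempty M := ⟨𝒢.src g₁⟩
  obtain ⟨x, hx⟩ := (dense_good (toSpan hW)).nonempty
  have hcount := countable_comm hW hx
  set u := un hW x with hu
  have hpu : p u = 𝒢.one x := p_un hW x
  obtain ⟨N⟩ := nform_of_submersion hq.smooth u (hq.sub u)
  by_contra hne'
  have hF : Nontrivial N.F := by
    rw [← Module.finrank_pos_iff (R := ℝ)]
    have h1 := N.dim
    have h2 : Module.finrank ℝ (Eu d) = d := by simp
    rw [h2] at h1
    omega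
  have hball : ¬ (Metric.ball (0 : N.F) N.ε).Countable := by
    intro hc
    have hd := hc.dense_compl ℝ
    obtain ⟨z, hz1, hz2⟩ := hd.inter_open_nonempty _ Metric.isOpen_ball ⟨0, N.zero_mem⟩
    exact hz2 hz1
  apply hball
  -- the countable set of points of `P` over the commutator subgroup
  have hS : {a : P | InC 𝒢 x (p a)}.Countable := by
    have h1 : {a : P | InC 𝒢 x (p a)} ⊆
        ⋃ k ∈ ((commutator (𝒢.Iso x) : Subgroup (𝒢.Iso x)) : Set (𝒢.Iso x)), p ⁻¹' {k.1} := by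
      rintro a ⟨k, hk, hka⟩
      exact mem_biUnion hk hka.symm
    exact (hcount.biUnion (fun k _ => fiber_countable hW k.1)).mono h1
  have hval : MapsTo (fun b => N.Ξ (rd (d := d) (q (p u)) (fun a => q (p a)) u, b))
      (Metric.ball (0 : N.F) N.ε) {a : P | InC 𝒢 x (p a)} := by
    intro b hb
    have h1 := N.right1 _ N.g₀U _ hb
    have h2 := N.WO (N.mapW _ N.g₀U _ hb)
    have h3 : q (p (N.Ξ (rd (d := d) (q (p u)) (fun a => q (p a)) u, b))) = q (p u) :=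
      chart_inj (d := d) (q (p u)) h2 (mem_src' _) h1
    change InC 𝒢 x (p (N.Ξ (rd (d := d) (q (p u)) (fun a => q (p a)) u, b)))
    rw [inC_iff hq.alg]
    exact h3.trans (congrArg q hpu)
  have hinj : InjOn (fun b => N.Ξ (rd (d := d) (q (p u)) (fun a => q (p a)) u, b))
      (Metric.ball (0 : N.F) N.ε) := by
    intro b hb c hc hbc
    rw [← N.right2 _ N.g₀U b hb, ← N.right2 _ N.g₀U c hc]
    exact congrArg N.κ hbc
  exact Set.MapsTo.countable_of_injOn hval hinj hS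

end etale

end H91WG

end
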