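import Pool.Agent.Helper91.WG.Descend

open scoped Manifold ContDiff Topology
open Set

noncomputable section

namespace H91WG

section bridge

variable {k l : ℕ} {X : Man k} {Y : Man l}

lemma isSymplectic_of {Ω : Form X} (h : IsSymplecticForm Ω) :
    H91PG.IsSymplectic (X := X.pt) (show H91PG.FormField k X.pt from Ω) where
  alt x u := h.alt x u
  nondeg x u hu := h.nondeg x u hu
  smooth E _ _ _ Z f hZ hf u v := h.smooth E Z f ⟨hZ, hf⟩ u v
  closed E _ _ _ Z f hZ hf z hz u v w := h.closed E Z f ⟨hZ, hf⟩ z hz u v w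

lemma isSymplecticForm_of {Ω : H91PG.FormField k X.pt} (h : H91PG.IsSymplectic Ω) :
    IsSymplecticForm (X := X) (show Form X from Ω) where
  alt x u := h.alt x u
  nondeg x u hu := h.nondeg x u hu
  smooth E _ _ _ Z f hf u v := h.smooth E Z f hf.1 hf.2 u v
  closed E _ _ _ Z f hf z hz u v w := h.closed E Z f hf.1 hf.2 z hz u v w

lemma wdata_of {n m : ℕ} {M : Man n} {P : Man m} {G : Type*} {𝒢 : Gpd M.pt G} {p : P.pt → G}
    {Ω : Form P} (h : IsPresentation 𝒢 p Ω) :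
    WData n 𝒢 p (show H91PG.FormField m P.pt from Ω) where
  surj := h.surj
  orbit := by
    obtain ⟨U, θ, h1, h2⟩ := h.orbit
    exact ⟨U, θ, fun i => (h1 i).1.1, fun i => (h1 i).1.2, fun i => (h1 i).2, h2⟩
  smooth_src := contMDiffOn_univ.mp h.src.1.2
  smooth_tgt := contMDiffOn_univ.mp h.tgt.1.2
  submersion_src := h.src.2
  plot_one E _ _ _ Z y hZ hy := by
    intro z hz
    obtain ⟨Z', f', h1, h2, h3⟩ := h.one E Z y ⟨hZ, hy⟩ z hz
    exact ⟨Z', f', h2.1, h1, h2.2, h3⟩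
  plot_inv E _ _ _ Z f hZ hf := by
    intro z hz
    obtain ⟨Z', f', h1, h2, h3⟩ := h.inv E Z f ⟨hZ, hf⟩ z hz
    exact ⟨Z', f', h2.1, h1, h2.2, h3⟩
  plot_mul E _ _ _ Z f g hZ hf hg hc := by
    intro z hz
    obtain ⟨Z', f', h1, h2, h3⟩ := h.mul E Z f g ⟨hZ, hf⟩ ⟨hZ, hg⟩ hc z hz
    exact ⟨Z', f', h2.1, h1, h2.2, h3⟩
  symplectic := isSymplectic_of h.symplectic
  mult E _ _ _ Z f g k hZ hf hg hk hc hm := h.mult E Z f g k ⟨hZ, hf⟩ ⟨hZ, hg⟩ ⟨hZ, hk⟩ hc hm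

end bridge

/-- The main theorem, bundled version. -/
theorem main' {n m d : ℕ} {M : Man n} [T2Space M.pt] {P : Man m} {G : Type*} (𝒢 : Gpd M.pt G)
    (p : P.pt → G) (Ω : Form P) (hG : IsPresentation 𝒢 p Ω) {H : Man d} (ℋ : Gpd M.pt H.pt)
    (q : G → H.pt) (hq : IsAbelianization 𝒢 ℋ q) (hs : IsSubmersion P H (fun a => q (p a))) :
    ∃ Ω' : Form H, IsSymplecticForm Ω' ∧ IsMultiplicativeForm ℋ Ω' ∧
      ∀ a u v, (Ω' (q (p a))).ev (der P H (fun a => q (p a)) a u)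
        (der P H (fun a => q (p a)) a v) = (Ω a).ev u v := by
  have := hG.countable
  obtain ⟨Ω', h1, h2, h3⟩ := main (n := n) (m := m) (d := d) 𝒢 ℋ p q
    (show H91PG.FormField m P.pt from Ω) (wdata_of hG)
    ⟨hq, contMDiffOn_univ.mp hs.1.2, hs.2⟩
  exact ⟨Ω', isSymplecticForm_of h1, fun E _ _ _ Z f g hf hg hc z hz u v =>
    h2 E Z f g hf.1 hf.2 hg.2 hc z hz u v, h3⟩

end H91WG

end
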