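import Pool.Agent.Helper91.PG.Anchor
import Pool.Agent.Helper78.SG.Baire

open scoped Manifold ContDiff Topology
open Set

noncomputable section

namespace H91WG

open H91PG

set_option linter.unusedSectionVars false

section pair

variable {m : ℕ} {X : Type*} [TopologicalSpace X] [ChartedSpace (Eu m) X]
variable {V₁ V₂ : Type} [NormedAddCommGroup V₁] [NormedSpace ℝ V₁] [NormedAddCommGroup V₂]
  [NormedSpace ℝ V₂]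

lemma mfderiv_pair {f₁ : X → V₁} {f₂ : X → V₂} {g : X}
    (h1 : MDifferentiableAt 𝓘(ℝ, Eu m) 𝓘(ℝ, V₁) f₁ g)
    (h2 : MDifferentiableAt 𝓘(ℝ, Eu m) 𝓘(ℝ, V₂) f₂ g) (w : TangentSpace 𝓘(ℝ, Eu m) g) :
    ((mfderiv 𝓘(ℝ, Eu m) 𝓘(ℝ, V₁ × V₂) (fun x => (f₁ x, f₂ x)) g) w : V₁ × V₂) =
      ((mfderiv 𝓘(ℝ, Eu m) 𝓘(ℝ, V₁) f₁ g) w, (mfderiv 𝓘(ℝ, Eu m) 𝓘(ℝ, V₂) f₂ g) w) := by
  have hΨd : MDifferentiableAt 𝓘(ℝ, Eu m) 𝓘(ℝ, V₁ × V₂) (fun x => (f₁ x, f₂ x)) g :=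
    h1.prodMk_space h2
  have hfst : mfderiv 𝓘(ℝ, Eu m) 𝓘(ℝ, V₁) f₁ g =
      (ContinuousLinearMap.fst ℝ V₁ V₂).comp
        (mfderiv 𝓘(ℝ, Eu m) 𝓘(ℝ, V₁ × V₂) (fun x => (f₁ x, f₂ x)) g) := by
    have := mfderiv_comp (I := 𝓘(ℝ, Eu m)) (I' := 𝓘(ℝ, V₁ × V₂)) (I'' := 𝓘(ℝ, V₁)) g
      (g := (Prod.fst : V₁ × V₂ → V₁)) (f := (fun x => (f₁ x, f₂ x)))
      (ContinuousLinearMap.fst ℝ V₁ V₂).differentiableAt.mdifferentiableAt hΨd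
    rw [mfderiv_eq_fderiv (f := (Prod.fst : V₁ × V₂ → V₁)), fderiv_fst] at this
    exact this
  have hsnd : mfderiv 𝓘(ℝ, Eu m) 𝓘(ℝ, V₂) f₂ g =
      (ContinuousLinearMap.snd ℝ V₁ V₂).comp
        (mfderiv 𝓘(ℝ, Eu m) 𝓘(ℝ, V₁ × V₂) (fun x => (f₁ x, f₂ x)) g) := by
    have := mfderiv_comp (I := 𝓘(ℝ, Eu m)) (I' := 𝓘(ℝ, V₁ × V₂)) (I'' := 𝓘(ℝ, V₂)) g
      (g := (Prod.snd : V₁ × V₂ → V₂)) (f := (fun x => (f₁ x, f₂ x)))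
      (ContinuousLinearMap.snd ℝ V₁ V₂).differentiableAt.mdifferentiableAt hΨd
    rw [mfderiv_eq_fderiv (f := (Prod.snd : V₁ × V₂ → V₂)), fderiv_snd] at this
    exact this
  rw [hfst, hsnd]
  rfl

lemma mfderiv_linear_comp {f : X → V₁} (T : V₁ →L[ℝ] V₂) {g : X}
    (h1 : MDifferentiableAt 𝓘(ℝ, Eu m) 𝓘(ℝ, V₁) f g) (w : TangentSpace 𝓘(ℝ, Eu m) g) :
    ((mfderiv 𝓘(ℝ, Eu m) 𝓘(ℝ, V₂) (fun x => T (f x)) g) w : V₂) =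
      T ((mfderiv 𝓘(ℝ, Eu m) 𝓘(ℝ, V₁) f g) w) := by
  have := mfderiv_comp (I := 𝓘(ℝ, Eu m)) (I' := 𝓘(ℝ, V₁)) (I'' := 𝓘(ℝ, V₂)) g
    (g := T) (f := f) T.differentiableAt.mdifferentiableAt h1
  rw [mfderiv_eq_fderiv (f := T), T.fderiv] at this
  exact DFunLike.congr_fun this w

end pair

section spandef

variable {n m : ℕ} {M P : Type*} [TopologicalSpace M] [ChartedSpace (Eu n) M]
  [TopologicalSpace P] [ChartedSpace (Eu m) P]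

/-- the image of the anchor -/
def anchST (n m : ℕ) {M P : Type*} [TopologicalSpace M] [ChartedSpace (Eu n) M]
    [TopologicalSpace P] [ChartedSpace (Eu m) P] (s t : P → M) (g : P) : Submodule ℝ (Eu n) :=
  Submodule.map (show Eu m →L[ℝ] Eu n from mfderiv 𝓘(ℝ, Eu m) 𝓘(ℝ, Eu n) t g).toLinearMap
    (LinearMap.ker (show Eu m →L[ℝ] Eu n from mfderiv 𝓘(ℝ, Eu m) 𝓘(ℝ, Eu n) s g).toLinearMap)

/-- Two maps with a rank function. -/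
structure Span (n m : ℕ) (M P : Type*) [TopologicalSpace M] [ChartedSpace (Eu n) M]
    [TopologicalSpace P] [ChartedSpace (Eu m) P] where
  s : P → M
  t : P → M
  smooth_s : ContMDiff 𝓘(ℝ, Eu m) 𝓘(ℝ, Eu n) ∞ s
  smooth_t : ContMDiff 𝓘(ℝ, Eu m) 𝓘(ℝ, Eu n) ∞ t
  sub_s : ∀ g, Function.Surjective (mfderiv 𝓘(ℝ, Eu m) 𝓘(ℝ, Eu n) s g)
  rk : M → ℕ
  rank : ∀ g, Module.finrank ℝ (anchST n m s t g) = rk (t g)
  nb : ∀ x, ∃ u, s u = x ∧ t u = x ∧ ∀ W, IsOpen W → u ∈ W → {y | ∃ a ∈ W, t a = y} ∈ 𝓝 x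

end spandef

section iso

variable {n m : ℕ} {M P : Type*} [TopologicalSpace M] [ChartedSpace (Eu n) M]
  [TopologicalSpace P] [ChartedSpace (Eu m) P] [IsManifold 𝓘(ℝ, Eu n) ∞ M]
  [IsManifold 𝓘(ℝ, Eu m) ∞ P] (𝒢 : Span n m M P)

/-- derivative of the source map -/
def dsrc (g : P) : Eu m →L[ℝ] Eu n := mfderiv 𝓘(ℝ, Eu m) 𝓘(ℝ, Eu n) 𝒢.s g

/-- derivative of the target map -/
def dtgt (g : P) : Eu m →L[ℝ] Eu n := mfderiv 𝓘(ℝ, Eu m) 𝓘(ℝ, Eu n) 𝒢.t g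

/-- the image of the anchor -/
def anch (g : P) : Submodule ℝ (Eu n) := anchST n m 𝒢.s 𝒢.t g

lemma mem_anch {g : P} {a : Eu n} : a ∈ anch 𝒢 g ↔
    ∃ w : Eu m, (mfderiv 𝓘(ℝ, Eu m) 𝓘(ℝ, Eu n) 𝒢.s g) w = 0 ∧
      ((mfderiv 𝓘(ℝ, Eu m) 𝓘(ℝ, Eu n) 𝒢.t g) w : Eu n) = a := by
  rw [anch, anchST, Submodule.mem_map]
  rfl

lemma finrank_anch (g : P) : Module.finrank ℝ (anch 𝒢 g) = 𝒢.rk (𝒢.t g) := 𝒢.rank g

/-- source and target in the chart at `x₀`. -/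
def sg (x₀ : M) : P → Eu n := rd (d := n) x₀ 𝒢.s
def tg (x₀ : M) : P → Eu n := rd (d := n) x₀ 𝒢.t

def dsg (x₀ : M) (g : P) : Eu m →L[ℝ] Eu n := mfderiv 𝓘(ℝ, Eu m) 𝓘(ℝ, Eu n) (sg 𝒢 x₀) g
def dtg (x₀ : M) (g : P) : Eu m →L[ℝ] Eu n := mfderiv 𝓘(ℝ, Eu m) 𝓘(ℝ, Eu n) (tg 𝒢 x₀) g

/-- derivative of the chart -/
def dch (x₀ x : M) : Eu n →L[ℝ] Eu n :=
  mfderiv 𝓘(ℝ, Eu n) 𝓘(ℝ, Eu n) (extChartAt 𝓘(ℝ, Eu n) x₀) x

/-- the domain -/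
def dom (x₀ : M) : Set P := 𝒢.s ⁻¹' src' (d := n) x₀ ∩ 𝒢.t ⁻¹' src' (d := n) x₀

lemma isOpen_dom (x₀ : M) : IsOpen (dom 𝒢 x₀) :=
  ((isOpen_src' _).preimage 𝒢.smooth_s.continuous).inter
    ((isOpen_src' _).preimage 𝒢.smooth_t.continuous)

lemma dsg_eq (x₀ : M) {g : P} (hg : g ∈ dom 𝒢 x₀) (w : Eu m) :
    dsg 𝒢 x₀ g w = dch x₀ (𝒢.s g) (dsrc 𝒢 g w) :=
  DFunLike.congr_fun (rd_deriv x₀ 𝒢.smooth_s hg.1) w

lemma dtg_eq (x₀ : M) {g : P} (hg : g ∈ dom 𝒢 x₀) (w : Eu m) :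
    dtg 𝒢 x₀ g w = dch x₀ (𝒢.t g) (dtgt 𝒢 g w) :=
  DFunLike.congr_fun (rd_deriv x₀ 𝒢.smooth_t hg.2) w

lemma dch_inj (x₀ : M) {x : M} (hx : x ∈ src' (d := n) x₀) :
    Function.Injective (dch (n := n) x₀ x) :=
  (chart_bij x₀ hx).1

lemma dsg_ker (x₀ : M) {g : P} (hg : g ∈ dom 𝒢 x₀) (w : Eu m) :
    dsg 𝒢 x₀ g w = 0 ↔ dsrc 𝒢 g w = 0 := by
  rw [dsg_eq 𝒢 x₀ hg]
  constructor
  · intro h
    apply dch_inj x₀ hg.1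
    rw [h, map_zero]
  · intro h
    rw [h, map_zero]

/-- anchor image in the chart -/
def anc (x₀ : M) (g : P) : Submodule ℝ (Eu n) :=
  Submodule.map (dtg 𝒢 x₀ g).toLinearMap (LinearMap.ker (dsg 𝒢 x₀ g).toLinearMap)

lemma mem_anc {x₀ : M} {g : P} {a : Eu n} :
    a ∈ anc 𝒢 x₀ g ↔ ∃ w : Eu m, dsg 𝒢 x₀ g w = 0 ∧ dtg 𝒢 x₀ g w = a := by
  rw [anc, Submodule.mem_map]
  rfl

lemma anc_eq (x₀ : M) {g : P} (hg : g ∈ dom 𝒢 x₀) :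
    anc 𝒢 x₀ g = Submodule.map (dch x₀ (𝒢.t g)).toLinearMap (anch 𝒢 g) := by
  ext a
  rw [mem_anc, Submodule.mem_map]
  constructor
  · rintro ⟨w, hw, ha⟩
    refine ⟨dtgt 𝒢 g w, (mem_anch 𝒢).mpr ⟨w, (dsg_ker 𝒢 x₀ hg w).mp hw, rfl⟩, ?_⟩
    rw [← ha, dtg_eq 𝒢 x₀ hg]
    rfl
  · rintro ⟨b, hb, hba⟩
    obtain ⟨w, hw, hwb⟩ := (mem_anch 𝒢).mp hb
    refine ⟨w, (dsg_ker 𝒢 x₀ hg w).mpr hw, ?_⟩
    rw [dtg_eq 𝒢 x₀ hg, ← hba, ← hwb]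
    rfl

lemma finrank_anc (x₀ : M) {g : P} (hg : g ∈ dom 𝒢 x₀) :
    Module.finrank ℝ (anc 𝒢 x₀ g) = 𝒢.rk (𝒢.t g) := by
  rw [anc_eq 𝒢 x₀ hg, ← finrank_anch]
  exact (Submodule.equivMapOfInjective (dch x₀ (𝒢.t g)).toLinearMap
    (dch_inj x₀ hg.2) (anch 𝒢 g)).finrank_eq.symm

/-- The linear map used for the normal form. -/
def TT (A : Submodule ℝ (Eu n)) : (Eu n × Eu n) →L[ℝ] (Eu n × A) :=
  (ContinuousLinearMap.fst ℝ (Eu n) (Eu n)).prod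
    (A.orthogonalProjectionOnto.comp (ContinuousLinearMap.snd ℝ (Eu n) (Eu n)) -
      A.orthogonalProjectionOnto.comp (ContinuousLinearMap.fst ℝ (Eu n) (Eu n)))

lemma TT_apply (A : Submodule ℝ (Eu n)) (a b : Eu n) :
    TT A (a, b) = (a, A.orthogonalProjectionOnto b - A.orthogonalProjectionOnto a) := rfl

/-- The submersion used for the normal form of the isotropy. -/
def Phi (x₀ : M) (A : Submodule ℝ (Eu n)) (g : P) : Eu n × A :=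
  TT A (sg 𝒢 x₀ g, tg 𝒢 x₀ g)

lemma sg_smooth (x₀ : M) : ContMDiffOn 𝓘(ℝ, Eu m) 𝓘(ℝ, Eu n) ∞ (sg 𝒢 x₀) (dom 𝒢 x₀) :=
  (rd_smooth x₀ 𝒢.smooth_s).mono inter_subset_left

lemma tg_smooth (x₀ : M) : ContMDiffOn 𝓘(ℝ, Eu m) 𝓘(ℝ, Eu n) ∞ (tg 𝒢 x₀) (dom 𝒢 x₀) :=
  (rd_smooth x₀ 𝒢.smooth_t).mono inter_subset_right

lemma Phi_smooth (x₀ : M) (A : Submodule ℝ (Eu n)) :
    ContMDiffOn 𝓘(ℝ, Eu m) 𝓘(ℝ, Eu n × A) ∞ (Phi 𝒢 x₀ A) (dom 𝒢 x₀) := by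
  have h1 : ContMDiffOn 𝓘(ℝ, Eu m) 𝓘(ℝ, Eu n × Eu n) ∞
      (fun g => (sg 𝒢 x₀ g, tg 𝒢 x₀ g)) (dom 𝒢 x₀) :=
    (sg_smooth 𝒢 x₀).prodMk_space (tg_smooth 𝒢 x₀)
  have h2 : ContMDiff 𝓘(ℝ, Eu n × Eu n) 𝓘(ℝ, Eu n × A) ∞ (TT A) := by
    rw [contMDiff_iff_contDiff]
    exact (TT A).contDiff
  exact h2.comp_contMDiffOn h1

lemma sg_mdiff (x₀ : M) {g : P} (hg : g ∈ dom 𝒢 x₀) :
    MDifferentiableAt 𝓘(ℝ, Eu m) 𝓘(ℝ, Eu n) (sg 𝒢 x₀) g :=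
  ((sg_smooth 𝒢 x₀).contMDiffAt ((isOpen_dom 𝒢 x₀).mem_nhds hg)).mdifferentiableAt (by simp)

lemma tg_mdiff (x₀ : M) {g : P} (hg : g ∈ dom 𝒢 x₀) :
    MDifferentiableAt 𝓘(ℝ, Eu m) 𝓘(ℝ, Eu n) (tg 𝒢 x₀) g :=
  ((tg_smooth 𝒢 x₀).contMDiffAt ((isOpen_dom 𝒢 x₀).mem_nhds hg)).mdifferentiableAt (by simp)

lemma Phi_deriv (x₀ : M) (A : Submodule ℝ (Eu n)) {g : P} (hg : g ∈ dom 𝒢 x₀) (w : Eu m) :
    ((mfderiv 𝓘(ℝ, Eu m) 𝓘(ℝ, Eu n × A) (Phi 𝒢 x₀ A) g) w : Eu n × A) =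
      (dsg 𝒢 x₀ g w, A.orthogonalProjectionOnto (dtg 𝒢 x₀ g w) -
        A.orthogonalProjectionOnto (dsg 𝒢 x₀ g w)) := by
  have h1 := mfderiv_linear_comp (TT A) ((sg_mdiff 𝒢 x₀ hg).prodMk_space (tg_mdiff 𝒢 x₀ hg)) w
  have h2 := mfderiv_pair (sg_mdiff 𝒢 x₀ hg) (tg_mdiff 𝒢 x₀ hg) w
  refine h1.trans ?_
  rw [h2]
  rfl

lemma Phi_surj (x₀ : M) {g₀ : P} (hg : g₀ ∈ dom 𝒢 x₀) :
    Function.Surjective
      (mfderiv 𝓘(ℝ, Eu m) 𝓘(ℝ, Eu n × anc 𝒢 x₀ g₀) (Phi 𝒢 x₀ (anc 𝒢 x₀ g₀)) g₀) := by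
  rintro ⟨a, α⟩
  obtain ⟨w₁, hw₁⟩ : ∃ w₁ : Eu m, dsg 𝒢 x₀ g₀ w₁ = a :=
    rd_surj x₀ 𝒢.smooth_s hg.1 (𝒢.sub_s g₀) a
  set P := (anc 𝒢 x₀ g₀).orthogonalProjectionOnto with hP
  obtain ⟨w₂, hw₂, hw₂'⟩ := (mem_anc 𝒢).mp
    (α - (P (dtg 𝒢 x₀ g₀ w₁) - P (dsg 𝒢 x₀ g₀ w₁))).2
  refine ⟨(w₁ + w₂ : Eu m), ?_⟩
  refine (Phi_deriv 𝒢 x₀ _ hg (w₁ + w₂)).trans ?_
  refine Prod.ext ?_ ?_
  · change dsg 𝒢 x₀ g₀ (w₁ + w₂) = a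
    rw [map_add, hw₁, hw₂, add_zero]
  · change P (dtg 𝒢 x₀ g₀ (w₁ + w₂)) - P (dsg 𝒢 x₀ g₀ (w₁ + w₂)) = α
    rw [map_add (dtg 𝒢 x₀ g₀), map_add (dsg 𝒢 x₀ g₀), hw₂, hw₂', add_zero, map_add]
    have h3 : P ((α - (P (dtg 𝒢 x₀ g₀ w₁) - P (dsg 𝒢 x₀ g₀ w₁)) : anc 𝒢 x₀ g₀) : Eu n) =
        α - (P (dtg 𝒢 x₀ g₀ w₁) - P (dsg 𝒢 x₀ g₀ w₁)) :=
      (anc 𝒢 x₀ g₀).orthogonalProjectionOnto_mem_subspace_eq_self _
    rw [h3]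
    abel

/-- surjectivity on the kernel at nearby points -/
lemma anc_onto (x₀ : M) {A : Submodule ℝ (Eu n)} {g : P} (hg : g ∈ dom 𝒢 x₀)
    (hs : Function.Surjective
      (mfderiv 𝓘(ℝ, Eu m) 𝓘(ℝ, Eu n × A) (Phi 𝒢 x₀ A) g)) (α : A) :
    ∃ b ∈ anc 𝒢 x₀ g, A.orthogonalProjectionOnto b = α := by
  obtain ⟨w, hw⟩ := hs ((0, α) : Eu n × A)
  have h := (Phi_deriv 𝒢 x₀ A hg w).symm.trans hw
  have h1 : dsg 𝒢 x₀ g w = 0 := congrArg Prod.fst h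
  have h2 : A.orthogonalProjectionOnto (dtg 𝒢 x₀ g w) -
        A.orthogonalProjectionOnto (dsg 𝒢 x₀ g w) = α := congrArg Prod.snd h
  rw [h1, map_zero, sub_zero] at h2
  exact ⟨_, (mem_anc 𝒢).mpr ⟨w, h1, rfl⟩, h2⟩

lemma finrank_le_anc (x₀ : M) {A : Submodule ℝ (Eu n)} {g : P} (hg : g ∈ dom 𝒢 x₀)
    (hs : Function.Surjective
      (mfderiv 𝓘(ℝ, Eu m) 𝓘(ℝ, Eu n × A) (Phi 𝒢 x₀ A) g)) :
    Module.finrank ℝ A ≤ 𝒢.rk (𝒢.t g) := by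
  rw [← finrank_anc 𝒢 x₀ hg]
  let f : anc 𝒢 x₀ g →ₗ[ℝ] A := A.orthogonalProjectionOnto.toLinearMap.domRestrict (anc 𝒢 x₀ g)
  have hf : Function.Surjective f := by
    intro α
    obtain ⟨b, hb, hbα⟩ := anc_onto 𝒢 x₀ hg hs α
    exact ⟨⟨b, hb⟩, hbα⟩
  exact LinearMap.finrank_le_finrank_of_surjective hf

lemma anc_inj (x₀ : M) {A : Submodule ℝ (Eu n)} {g : P} (hg : g ∈ dom 𝒢 x₀)
    (hs : Function.Surjective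
      (mfderiv 𝓘(ℝ, Eu m) 𝓘(ℝ, Eu n × A) (Phi 𝒢 x₀ A) g))
    (hr : 𝒢.rk (𝒢.t g) = Module.finrank ℝ A) {b : Eu n} (hb : b ∈ anc 𝒢 x₀ g)
    (hb0 : A.orthogonalProjectionOnto b = 0) : b = 0 := by
  let f : anc 𝒢 x₀ g →ₗ[ℝ] A := A.orthogonalProjectionOnto.toLinearMap.domRestrict (anc 𝒢 x₀ g)
  have hf : Function.Surjective f := by
    intro α
    obtain ⟨b, hb, hbα⟩ := anc_onto 𝒢 x₀ hg hs α
    exact ⟨⟨b, hb⟩, hbα⟩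
  have hdim : Module.finrank ℝ (anc 𝒢 x₀ g) = Module.finrank ℝ A := by
    rw [finrank_anc 𝒢 x₀ hg, hr]
  have hinj : Function.Injective f :=
    (LinearMap.injective_iff_surjective_of_finrank_eq_finrank hdim).mpr hf
  have : (⟨b, hb⟩ : anc 𝒢 x₀ g) = 0 := hinj (by rw [map_zero]; exact hb0)
  exact congrArg Subtype.val this

/-- the rank is lower semicontinuous -/
theorem isOpen_rk (k : ℕ) : IsOpen {x : M | k ≤ 𝒢.rk x} := by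
  rw [isOpen_iff_mem_nhds]
  intro x₀ hx₀
  obtain ⟨u, hsu, htu, hu⟩ := 𝒢.nb x₀
  have hg : u ∈ dom 𝒢 x₀ := by
    refine ⟨?_, ?_⟩
    · change 𝒢.s u ∈ src' (d := n) x₀
      rw [hsu]; exact mem_src' _
    · change 𝒢.t u ∈ src' (d := n) x₀
      rw [htu]; exact mem_src' _
  obtain ⟨N⟩ := exists_nform (isOpen_dom 𝒢 x₀) hg (Phi_smooth 𝒢 x₀ _) (Phi_surj 𝒢 x₀ hg)
  have hrank : Module.finrank ℝ (anc 𝒢 x₀ u) = 𝒢.rk x₀ := by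
    rw [finrank_anc 𝒢 x₀ hg, htu]
  filter_upwards [hu N.W N.hW N.g₀W] with x hx
  obtain ⟨a, ha, hax⟩ := hx
  have h1 := finrank_le_anc 𝒢 x₀ (N.WO ha) (N.surj ha)
  rw [hrank, hax] at h1
  exact le_trans hx₀ h1

/-- the chart of `M` at `x₀` -/
def ch (x₀ : M) : PartialEquiv M (Eu n) := extChartAt 𝓘(ℝ, Eu n) x₀

/-- A parametrization of the isotropy near `g₀`. -/
structure IsoChart (x₀ : M) (g₀ : P) where
  F : Submodule ℝ (Eu m)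
  S : Eu n × F → P
  U : Set (Eu n)
  ε : ℝ
  W : Set P
  hU : IsOpen U
  x₀U : ch (n := n) x₀ x₀ ∈ U
  UT : U ⊆ (ch (n := n) x₀).target
  hε : 0 < ε
  smooth : Sm m S (U ×ˢ Metric.ball (0 : F) ε)
  src_eq : ∀ v ∈ U, ∀ b ∈ Metric.ball (0 : F) ε, 𝒢.s (S (v, b)) = (ch (n := n) x₀).symm v
  tgt_eq : ∀ v ∈ U, ∀ b ∈ Metric.ball (0 : F) ε, 𝒢.t (S (v, b)) = (ch (n := n) x₀).symm v
  base : S (ch (n := n) x₀ x₀, 0) = g₀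
  hW : IsOpen W
  g₀W : g₀ ∈ W
  cover : ∀ h ∈ W, 𝒢.s h = x₀ → 𝒢.t h = x₀ →
    ∃ b ∈ Metric.ball (0 : F) ε, S (ch (n := n) x₀ x₀, b) = h

theorem exists_isoChart {x₀ : M} {g₀ : P} (hs : 𝒢.s g₀ = x₀) (ht : 𝒢.t g₀ = x₀)
    (hconst : ∀ᶠ x in 𝓝 x₀, 𝒢.rk x = 𝒢.rk x₀)
    (hgen : ∀ W ∈ 𝓝 g₀, {y | ∃ h ∈ W, 𝒢.s h = y ∧ 𝒢.t h = y} ∈ 𝓝 x₀) :
    Nonempty (IsoChart 𝒢 x₀ g₀) := by
  obtain ⟨V₀, hV₀, hV₀o, hx₀V₀⟩ := mem_nhds_iff.mp hconst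
  have hgd : g₀ ∈ dom 𝒢 x₀ := by
    refine ⟨?_, ?_⟩
    · change 𝒢.s g₀ ∈ src' (d := n) x₀
      rw [hs]; exact mem_src' _
    · change 𝒢.t g₀ ∈ src' (d := n) x₀
      rw [ht]; exact mem_src' _
  set A := anc 𝒢 x₀ g₀ with hA
  have hrank : Module.finrank ℝ A = 𝒢.rk x₀ := by
    rw [hA, finrank_anc 𝒢 x₀ hgd, ht]
  set O : Set P := dom 𝒢 x₀ ∩ 𝒢.t ⁻¹' V₀ with hO
  have hOo : IsOpen O := (isOpen_dom 𝒢 x₀).inter (hV₀o.preimage 𝒢.smooth_t.continuous)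
  have hgO : g₀ ∈ O := ⟨hgd, by change 𝒢.t g₀ ∈ V₀; rw [ht]; exact hx₀V₀⟩
  obtain ⟨N⟩ := exists_nform hOo hgO ((Phi_smooth 𝒢 x₀ A).mono inter_subset_left)
    (Phi_surj 𝒢 x₀ hgd)
  set v₀ := ch (n := n) x₀ x₀ with hv₀
  have hΦiso : ∀ h : P, 𝒢.s h = 𝒢.t h → Phi 𝒢 x₀ A h = (sg 𝒢 x₀ h, 0) := by
    intro h hh
    rw [Phi, TT_apply]
    have : tg 𝒢 x₀ h = sg 𝒢 x₀ h := by
      rw [tg, sg, rd, rd, hh]
    rw [this, sub_self]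
  have hσ₀ : sg 𝒢 x₀ g₀ = v₀ := by
    rw [sg, rd, hs]; rfl
  have hΦ₀ : Phi 𝒢 x₀ A g₀ = (v₀, 0) := by
    rw [hΦiso g₀ (hs.trans ht.symm), hσ₀]
  -- values of `Φ`
  have hΦ1 : ∀ g, (Phi 𝒢 x₀ A g).1 = sg 𝒢 x₀ g := fun g => rfl
  set U' : Set (Eu n) := (fun v => ((v, 0) : Eu n × A)) ⁻¹' N.U with hU'
  have hU'o : IsOpen U' := N.hU.preimage (by fun_prop)
  have hv₀U' : v₀ ∈ U' := by
    change ((v₀, 0) : Eu n × A) ∈ N.U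
    rw [← hΦ₀]; exact N.g₀U
  -- independence of `b`
  have hind : ∀ v ∈ U', ∀ b ∈ Metric.ball (0 : N.F) N.ε, ∀ b' ∈ Metric.ball (0 : N.F) N.ε,
      tg 𝒢 x₀ (N.Ξ ((v, 0), b)) = tg 𝒢 x₀ (N.Ξ ((v, 0), b')) := by
    intro v hv b hb b' hb'
    have hemb : ContDiff ℝ ∞ (fun b : N.F => (((v, 0), b) : (Eu n × A) × N.F)) :=
      contDiff_const.prodMk contDiff_id
    have hmaps : ∀ b ∈ Metric.ball (0 : N.F) N.ε, (((v, 0), b) : (Eu n × A) × N.F) ∈ N.D :=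
      fun b hb => ⟨hv, hb⟩
    have hWd : ∀ b ∈ Metric.ball (0 : N.F) N.ε, N.Ξ ((v, 0), b) ∈ N.W :=
      fun b hb => N.mapW _ hv _ hb
    have key : ∀ b ∈ Metric.ball (0 : N.F) N.ε,
        HasFDerivAt (𝕜 := ℝ) (fun b : N.F => tg 𝒢 x₀ (N.Ξ ((v, 0), b)))
          (0 : N.F →L[ℝ] Eu n) b := by
      intro b hb
      have hd1 : MDifferentiableAt 𝓘(ℝ, N.F) 𝓘(ℝ, (Eu n × A) × N.F)
          (fun b : N.F => (((v, 0), b) : (Eu n × A) × N.F)) b :=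
        (hemb.differentiable (by simp)).differentiableAt.mdifferentiableAt
      have hd2 := N.mdiffΞ (hmaps b hb)
      have hgdom : N.Ξ ((v, 0), b) ∈ dom 𝒢 x₀ := (N.WO (hWd b hb)).1
      have hd3 := tg_mdiff 𝒢 x₀ hgdom
      have hd12 : MDifferentiableAt 𝓘(ℝ, N.F) 𝓘(ℝ, Eu m)
          (fun b : N.F => N.Ξ ((v, 0), b)) b := hd2.comp b hd1
      have hc1 := mfderiv_comp (I := 𝓘(ℝ, N.F)) (I' := 𝓘(ℝ, (Eu n × A) × N.F))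
        (I'' := 𝓘(ℝ, Eu m)) b (g := N.Ξ)
        (f := (fun b : N.F => (((v, 0), b) : (Eu n × A) × N.F))) hd2 hd1
      have hc2 := mfderiv_comp (I := 𝓘(ℝ, N.F)) (I' := 𝓘(ℝ, Eu m)) (I'' := 𝓘(ℝ, Eu n)) b
        (g := tg 𝒢 x₀) (f := (fun b : N.F => N.Ξ ((v, 0), b))) hd3 hd12
      have hd123 : MDifferentiableAt 𝓘(ℝ, N.F) 𝓘(ℝ, Eu n)
          (fun b : N.F => tg 𝒢 x₀ (N.Ξ ((v, 0), b))) b := hd3.comp b hd12
      have hdiff : DifferentiableAt ℝ (fun b : N.F => tg 𝒢 x₀ (N.Ξ ((v, 0), b))) b :=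
        hd123.differentiableAt
      have hzero : fderiv ℝ (fun b : N.F => tg 𝒢 x₀ (N.Ξ ((v, 0), b))) b = 0 := by
        ext1 f
        have e1 : fderiv ℝ (fun b : N.F => tg 𝒢 x₀ (N.Ξ ((v, 0), b))) b f =
            dtg 𝒢 x₀ (N.Ξ ((v, 0), b))
              ((mfderiv 𝓘(ℝ, (Eu n × A) × N.F) 𝓘(ℝ, Eu m) N.Ξ ((v, 0), b))
                (((0, 0), f) : (Eu n × A) × N.F)) := by
          rw [← mfderiv_eq_fderiv]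
          refine (DFunLike.congr_fun hc2 f).trans ?_
          have e2 : (mfderiv 𝓘(ℝ, N.F) 𝓘(ℝ, Eu m) (fun b : N.F => N.Ξ ((v, 0), b)) b) f =
              (mfderiv 𝓘(ℝ, (Eu n × A) × N.F) 𝓘(ℝ, Eu m) N.Ξ ((v, 0), b))
                (((0, 0), f) : (Eu n × A) × N.F) := by
            refine (DFunLike.congr_fun hc1 f).trans ?_
            have e3 : fderiv ℝ (fun b : N.F => (((v, 0), b) : (Eu n × A) × N.F)) b f =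
                ((0, 0), f) := by
              have : HasFDerivAt (fun b : N.F => (((v, 0), b) : (Eu n × A) × N.F))
                  ((0 : N.F →L[ℝ] (Eu n × A)).prod (ContinuousLinearMap.id ℝ N.F)) b :=
                (hasFDerivAt_const _ _).prodMk (hasFDerivAt_id b)
              rw [this.fderiv]
              rfl
            rw [mfderiv_eq_fderiv]
            exact congrArg (fun z : (Eu n × A) × N.F =>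
              (mfderiv 𝓘(ℝ, (Eu n × A) × N.F) 𝓘(ℝ, Eu m) N.Ξ ((v, 0), b)) z) e3
          exact congrArg (fun z : Eu m => dtg 𝒢 x₀ (N.Ξ ((v, 0), b)) z) e2
        rw [e1]
        set w : Eu m := (mfderiv 𝓘(ℝ, (Eu n × A) × N.F) 𝓘(ℝ, Eu m) N.Ξ ((v, 0), b))
                (((0, 0), f) : (Eu n × A) × N.F) with hw
        have hr : (mfderiv 𝓘(ℝ, Eu m) 𝓘(ℝ, Eu n × A) (Phi 𝒢 x₀ A) (N.Ξ ((v, 0), b))) w =
            ((0, 0) : Eu n × A) := N.deriv_right (hmaps b hb) ((0, 0), f)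
        have hr' := (Phi_deriv 𝒢 x₀ A hgdom w).symm.trans hr
        have h1 : dsg 𝒢 x₀ (N.Ξ ((v, 0), b)) w = 0 := congrArg Prod.fst hr'
        have h2 : A.orthogonalProjectionOnto (dtg 𝒢 x₀ (N.Ξ ((v, 0), b)) w) -
          A.orthogonalProjectionOnto (dsg 𝒢 x₀ (N.Ξ ((v, 0), b)) w) = 0 :=
          congrArg Prod.snd hr'
        rw [h1, map_zero, sub_zero] at h2
        have hrk : 𝒢.rk (𝒢.t (N.Ξ ((v, 0), b))) = Module.finrank ℝ A := by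
          rw [hrank]
          exact hV₀ (N.WO (hWd b hb)).2
        exact anc_inj 𝒢 x₀ hgdom (N.surj (hWd b hb)) hrk ((mem_anc 𝒢).mpr ⟨w, h1, rfl⟩) h2
      rw [← hzero]
      exact hdiff.hasFDerivAt
    refine Metric.isOpen_ball.is_const_of_fderiv_eq_zero (𝕜 := ℝ)
      (f := (fun b : N.F => tg 𝒢 x₀ (N.Ξ ((v, 0), b))))
      (convex_ball (0 : N.F) N.ε).isPreconnected
      (fun b hb => (key b hb).differentiableAt.differentiableWithinAt)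
      (fun b hb => (key b hb).fderiv) hb hb'
  -- genericity
  have hS := hgen N.W (N.hW.mem_nhds N.g₀W)
  set T : Set (Eu n) := (ch (n := n) x₀).target ∩
    (ch (n := n) x₀).symm ⁻¹' (interior {y | ∃ h ∈ N.W, 𝒢.s h = y ∧ 𝒢.t h = y}) with hT
  have hTo : IsOpen T :=
    (continuousOn_extChartAt_symm (I := 𝓘(ℝ, Eu n)) x₀).isOpen_inter_preimage
      (isOpen_extChartAt_target (I := 𝓘(ℝ, Eu n)) x₀) isOpen_interior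
  have hv₀T : v₀ ∈ T := by
    refine ⟨mem_extChartAt_target x₀, ?_⟩
    change (extChartAt 𝓘(ℝ, Eu n) x₀).symm (extChartAt 𝓘(ℝ, Eu n) x₀ x₀) ∈
      interior {y | ∃ h ∈ N.W, 𝒢.s h = y ∧ 𝒢.t h = y}
    rw [extChartAt_to_inv]
    exact mem_interior_iff_mem_nhds.mpr hS
  have htau : ∀ v ∈ U' ∩ T, ∀ b ∈ Metric.ball (0 : N.F) N.ε,
      tg 𝒢 x₀ (N.Ξ ((v, 0), b)) = v := by
    rintro v ⟨hvU, hvT, hvS⟩ b hb
    obtain ⟨h, hhW, hhs, hht⟩ := interior_subset hvS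
    have hsgh : sg 𝒢 x₀ h = v := by
      rw [sg, rd, hhs]
      exact (ch (n := n) x₀).right_inv hvT
    have htgh : tg 𝒢 x₀ h = v := by
      rw [tg, rd, hht]
      exact (ch (n := n) x₀).right_inv hvT
    have hΦh : Phi 𝒢 x₀ A h = (v, 0) := by
      rw [hΦiso h (hhs.trans hht.symm), hsgh]
    have hl := N.left h hhW
    rw [hΦh] at hl
    rw [hind v hvU b hb (N.κ h) (N.toB h hhW), hl, htgh]
  refine ⟨{ F := N.F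
            S := fun p => N.Ξ ((p.1, 0), p.2)
            U := U' ∩ T
            ε := N.ε
            W := N.W
            hU := hU'o.inter hTo
            x₀U := ⟨hv₀U', hv₀T⟩
            UT := fun v hv => hv.2.1
            hε := N.hε
            smooth := ?_
            src_eq := ?_
            tgt_eq := ?_
            base := ?_
            hW := N.hW
            g₀W := N.g₀W
            cover := ?_ }⟩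
  · refine N.smooth.comp_space (h := fun p : Eu n × N.F => (((p.1, 0), p.2) : (Eu n × A) × N.F))
      ?_ ?_
    · exact ((contDiff_fst.prodMk contDiff_const).prodMk contDiff_snd).contDiffOn
    · rintro ⟨v, b⟩ ⟨hv, hb⟩
      exact ⟨hv.1, hb⟩
  · intro v hv b hb
    have hW := N.mapW _ hv.1 _ hb
    have h1 : sg 𝒢 x₀ (N.Ξ ((v, 0), b)) = v := congrArg Prod.fst (N.right1 _ hv.1 _ hb)
    have h2 : 𝒢.s (N.Ξ ((v, 0), b)) ∈ (ch (n := n) x₀).source := (N.WO hW).1.1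
    rw [← (ch (n := n) x₀).left_inv h2]
    exact congrArg _ h1
  · intro v hv b hb
    have hW := N.mapW _ hv.1 _ hb
    have h1 : tg 𝒢 x₀ (N.Ξ ((v, 0), b)) = v := htau v hv b hb
    have h2 : 𝒢.t (N.Ξ ((v, 0), b)) ∈ (ch (n := n) x₀).source := (N.WO hW).1.2
    rw [← (ch (n := n) x₀).left_inv h2]
    exact congrArg _ h1
  · change N.Ξ ((v₀, 0), 0) = g₀
    rw [← hΦ₀]
    exact N.Ξ₀
  · intro h hh hhs hht
    refine ⟨N.κ h, N.toB h hh, ?_⟩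
    have hΦh : Phi 𝒢 x₀ A h = (v₀, 0) := by
      rw [hΦiso h (hhs.trans hht.symm), sg, rd, hhs]
      rfl
    have hl := N.left h hh
    rw [hΦh] at hl
    exact hl

/-- A point is good when the isotropy has charts at all its elements. -/
def Good (x₀ : M) : Prop :=
  ∀ g₀ : P, 𝒢.s g₀ = x₀ → 𝒢.t g₀ = x₀ → Nonempty (IsoChart 𝒢 x₀ g₀)

theorem dense_good [T2Space M] [SecondCountableTopology P] : Dense {x : M | Good 𝒢 x} := by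
  have : LocallyCompactSpace M := ChartedSpace.locallyCompactSpace (Eu n) M
  have : LocallyCompactSpace P := ChartedSpace.locallyCompactSpace (Eu m) P
  refine (Pool.Agent.Helper78.SG.dense_generic 𝒢.s 𝒢.t 𝒢.smooth_s.continuous
    𝒢.smooth_t.continuous (fun k => {x : M | k ≤ 𝒢.rk x}) (isOpen_rk 𝒢)).mono ?_
  rintro x ⟨hfr, hgen⟩ g₀ hs ht
  refine exists_isoChart 𝒢 hs ht ?_ (hgen g₀ hs ht)
  have h1 : {y : M | 𝒢.rk x ≤ 𝒢.rk y} ∈ 𝓝 x := (isOpen_rk 𝒢 _).mem_nhds (le_refl (𝒢.rk x))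
  have h2 : {y : M | 𝒢.rk x + 1 ≤ 𝒢.rk y}ᶜ ∈ 𝓝 x := by
    have hx : x ∉ closure {y : M | 𝒢.rk x + 1 ≤ 𝒢.rk y} := by
      intro hcl
      apply hfr (𝒢.rk x + 1)
      refine ⟨hcl, ?_⟩
      intro hint
      have := interior_subset hint
      change 𝒢.rk x + 1 ≤ 𝒢.rk x at this
      omega
    have := isClosed_closure.isOpen_compl.mem_nhds hx
    exact Filter.mem_of_superset this (compl_subset_compl.mpr subset_closure)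
  filter_upwards [h1, h2] with y hy1 hy2
  change ¬ (𝒢.rk x + 1 ≤ 𝒢.rk y) at hy2
  change 𝒢.rk x ≤ 𝒢.rk y at hy1
  omega

end iso

end H91WG

end
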