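import Pool.Agent.Helper91.WG.Base
import Pool.Agent.Helper91.WG.Span

open scoped Manifold ContDiff Topology
open Set

noncomputable section

namespace H91WG

open H91PG

set_option linter.unusedSectionVars false

section rank

variable {n m : ℕ} {M G P : Type*} [TopologicalSpace M] [ChartedSpace (Eu n) M]
  [TopologicalSpace P] [ChartedSpace (Eu m) P] [IsManifold 𝓘(ℝ, Eu n) ∞ M]
  [IsManifold 𝓘(ℝ, Eu m) ∞ P] {𝒢 : Gpd M G} {p : P → G} {Ω : FormField m P}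

/-- velocities of target curves of curves in the source fibre -/
def velW (n m : ℕ) {M G P : Type*} [TopologicalSpace M] [ChartedSpace (Eu n) M]
    [TopologicalSpace P] [ChartedSpace (Eu m) P] (𝒢 : Gpd M G) (p : P → G) (g : P) :
    Set (Eu n) :=
  {a | ∃ (J : Set ℝ) (c : ℝ → P), IsOpen J ∧ (0 : ℝ) ∈ J ∧ Sm m c J ∧ c 0 = g ∧
    (∀ b ∈ J, 𝒢.src (p (c b)) = 𝒢.src (p g)) ∧
    ((mfderiv 𝓘(ℝ, ℝ) 𝓘(ℝ, Eu n) (fun b => 𝒢.tgt (p (c b))) 0 (1 : ℝ) : Eu n) = a)}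

/-- the image of the anchor -/
abbrev anchW (n m : ℕ) {M G P : Type*} [TopologicalSpace M] [ChartedSpace (Eu n) M]
    [TopologicalSpace P] [ChartedSpace (Eu m) P] (𝒢 : Gpd M G) (p : P → G) (g : P) :
    Submodule ℝ (Eu n) :=
  anchST n m (fun a => 𝒢.src (p a)) (fun a => 𝒢.tgt (p a)) g

lemma velW_eq (hW : WData n 𝒢 p Ω) (g : P) : velW n m 𝒢 p g = anchW n m 𝒢 p g := by
  ext a
  have hmem : a ∈ anchW n m 𝒢 p g ↔
    ∃ w : Eu m, (mfderiv 𝓘(ℝ, Eu m) 𝓘(ℝ, Eu n) (fun a => 𝒢.src (p a)) g) w = 0 ∧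
      ((mfderiv 𝓘(ℝ, Eu m) 𝓘(ℝ, Eu n) (fun a => 𝒢.tgt (p a)) g) w : Eu n) = a := by
    rw [anchW, anchST, Submodule.mem_map]
    rfl
  rw [SetLike.mem_coe, hmem]
  constructor
  · rintro ⟨J, c, hJ, h0, hc, hc0, hs, ha⟩
    subst hc0
    have hcd := hc.mdiff hJ h0
    refine ⟨mfderiv 𝓘(ℝ, ℝ) 𝓘(ℝ, Eu m) c 0 (1 : ℝ), ?_, ?_⟩
    · have h1 := mfderiv_comp (I := 𝓘(ℝ, ℝ)) (I' := 𝓘(ℝ, Eu m)) (I'' := 𝓘(ℝ, Eu n)) (0 : ℝ)
        (g := fun a => 𝒢.src (p a)) (f := c) (hW.smooth_src.mdifferentiableAt (by simp)) hcd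
      have h2 : ((fun a => 𝒢.src (p a)) ∘ c) =ᶠ[𝓝 (0 : ℝ)] fun _ => 𝒢.src (p (c 0)) := by
        filter_upwards [hJ.mem_nhds h0] with b hb
        exact hs b hb
      rw [h2.mfderiv_eq, mfderiv_const] at h1
      exact (DFunLike.congr_fun h1 (1 : ℝ)).symm
    · have h1 := mfderiv_comp (I := 𝓘(ℝ, ℝ)) (I' := 𝓘(ℝ, Eu m)) (I'' := 𝓘(ℝ, Eu n)) (0 : ℝ)
        (g := fun a => 𝒢.tgt (p a)) (f := c) (hW.smooth_tgt.mdifferentiableAt (by simp)) hcd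
      rw [← ha]
      exact (DFunLike.congr_fun h1 (1 : ℝ)).symm
  · rintro ⟨w, hw, ha⟩
    obtain ⟨J, c, hJ, h0, hc, hc0, hs, hcw⟩ :=
      exists_curve hW.smooth_src g (hW.submersion_src g) w hw
    refine ⟨J, c, hJ, h0, hc, hc0, hs, ?_⟩
    subst hc0
    have h1 := mfderiv_comp (I := 𝓘(ℝ, ℝ)) (I' := 𝓘(ℝ, Eu m)) (I'' := 𝓘(ℝ, Eu n)) (0 : ℝ)
      (g := fun a => 𝒢.tgt (p a)) (f := c) (hW.smooth_tgt.mdifferentiableAt (by simp))
      (hc.mdiff hJ h0)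
    have h2 := DFunLike.congr_fun h1 (1 : ℝ)
    refine Eq.trans h2 ?_
    rw [← ha, ← hcw]
    rfl

lemma velW_mul_right (hW : WData n 𝒢 p Ω) {a a' : P} {h : G} (hgh : 𝒢.src (p a) = 𝒢.tgt h)
    (ha' : p a' = 𝒢.mul (p a) h) : velW n m 𝒢 p a ⊆ velW n m 𝒢 p a' := by
  rintro w ⟨J, c, hJ, h0, hc, hc0, hs, hw⟩
  obtain ⟨b, rfl⟩ := hW.surj h
  have hcomp : ∀ t ∈ J, 𝒢.src (p (c t)) = 𝒢.tgt (p b) := fun t ht => (hs t ht).trans hgh
  have hpl := hW.plot_mul ℝ J c (fun _ => b) hJ hc (sm_const b J) hcomp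
  obtain ⟨J', c', h1, h2, h3, h4, h5, h6⟩ := exists_lift_at hW hJ hpl h0 (a := a')
    (by rw [ha', hc0])
  refine ⟨J', c', h1, h2, h4, h5, ?_, ?_⟩
  · intro t ht
    rw [h6 t ht, ha', 𝒢.src_mul _ _ (hcomp t (h3 ht)), 𝒢.src_mul _ _ hgh]
  · rw [← hw]
    have h7 : (fun t => 𝒢.tgt (p (c' t))) =ᶠ[𝓝 (0 : ℝ)] fun t => 𝒢.tgt (p (c t)) := by
      filter_upwards [h1.mem_nhds h2] with t ht
      rw [h6 t ht, 𝒢.tgt_mul _ _ (hcomp t (h3 ht))]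
    rw [h7.mfderiv_eq]
    rfl

lemma anchW_eq_one (hW : WData n 𝒢 p Ω) (a u : P) (hu : p u = 𝒢.one (𝒢.tgt (p a))) :
    anchW n m 𝒢 p a = anchW n m 𝒢 p u := by
  apply SetLike.coe_injective
  rw [← velW_eq hW, ← velW_eq hW]
  apply Subset.antisymm
  · exact velW_mul_right hW (h := 𝒢.inv (p a)) (𝒢.tgt_inv _).symm (by rw [𝒢.mul_inv, hu])
  · exact velW_mul_right hW (h := p a) (by rw [hu, 𝒢.src_one]) (by rw [hu, 𝒢.one_mul])

/-- a chosen point over the unit -/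
def un (hW : WData n 𝒢 p Ω) (x : M) : P := (hW.surj (𝒢.one x)).choose

lemma p_un (hW : WData n 𝒢 p Ω) (x : M) : p (un hW x) = 𝒢.one x :=
  (hW.surj (𝒢.one x)).choose_spec

/-- The span of source and target. -/
def toSpan (hW : WData n 𝒢 p Ω) : Span n m M P where
  s a := 𝒢.src (p a)
  t a := 𝒢.tgt (p a)
  smooth_s := hW.smooth_src
  smooth_t := hW.smooth_tgt
  sub_s := hW.submersion_src
  rk x := Module.finrank ℝ (anchW n m 𝒢 p (un hW x))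
  rank a := by
    have := anchW_eq_one hW a (un hW (𝒢.tgt (p a))) (p_un hW _)
    rw [← this]
  nb x := by
    refine ⟨un hW x, by rw [p_un hW, 𝒢.src_one], by rw [p_un hW, 𝒢.tgt_one], ?_⟩
    intro W hWo huW
    set ψ := extChartAt 𝓘(ℝ, Eu n) x with hψ
    have hT : IsOpen ψ.target := isOpen_extChartAt_target _
    have hs : Sm n (fun w => ψ.symm w) ψ.target := contMDiffOn_extChartAt_symm x
    have hsymm : ψ.symm (ψ x) = x := extChartAt_to_inv (I := 𝓘(ℝ, Eu n)) x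
    have hpl := hW.plot_one (Eu n) ψ.target _ hT hs
    obtain ⟨Z', f', h1, h2, h3, h4, h5, h6⟩ := exists_lift_at hW hT hpl
      (mem_extChartAt_target x) (a := un hW x) (by rw [p_un hW, hsymm])
    have hO : IsOpen (Z' ∩ f' ⁻¹' W) := h4.continuousOn.isOpen_inter_preimage h1 hWo
    have hψc : ContinuousOn ψ ψ.source := continuousOn_extChartAt x
    have hM : IsOpen (ψ.source ∩ ψ ⁻¹' (Z' ∩ f' ⁻¹' W)) :=
      hψc.isOpen_inter_preimage (isOpen_extChartAt_source _) hO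
    refine Filter.mem_of_superset (hM.mem_nhds ⟨mem_extChartAt_source _, h2, ?_⟩) ?_
    · change f' (ψ x) ∈ W
      rw [h5]; exact huW
    · intro y hy
      refine ⟨f' (ψ y), hy.2.2, ?_⟩
      rw [h6 _ hy.2.1, 𝒢.tgt_one]
      exact ψ.left_inv hy.1

end rank

end H91WG

end
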