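import Pool.Agent.Helper91.WG.Etale

open scoped Manifold ContDiff Topology commutatorElement
open Set

noncomputable section

namespace H91WG

open H91PG

set_option linter.unusedSectionVars false

section ext

variable {n m : ℕ} {M G P : Type*} [TopologicalSpace M] [ChartedSpace (Eu n) M]
  [TopologicalSpace P] [ChartedSpace (Eu m) P] [IsManifold 𝓘(ℝ, Eu n) ∞ M]
  [IsManifold 𝓘(ℝ, Eu m) ∞ P] {𝒢 : Gpd M G} {p : P → G} {Ω : FormField m P}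

/-- every commutator at a good point extends to a smooth family with vanishing pull-back -/
theorem exists_ext (hW : WData n 𝒢 p Ω) {y₀ : M} (hy : Good (toSpan hW) y₀) {k : 𝒢.Iso y₀}
    (hk : k ∈ commutator (𝒢.Iso y₀)) :
    ∃ (Z : Set (Eu n)) (κ : Eu n → G), IsOpen Z ∧ ch (n := n) y₀ y₀ ∈ Z ∧ Pl m p κ Z ∧
      κ (ch (n := n) y₀ y₀) = k.1 ∧ (∀ w ∈ Z, InC 𝒢 ((ch (n := n) y₀).symm w) (κ w)) ∧
      ∀ w ∈ Z, ∀ a b, plv p Ω κ w a b = 0 := by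
  set ψ := ch (n := n) y₀ with hψ
  have hsymm : ψ.symm (ψ y₀) = y₀ := extChartAt_to_inv (I := 𝓘(ℝ, Eu n)) y₀
  rw [commutator_eq_closure] at hk
  induction hk using Subgroup.closure_induction with
  | mem g hg =>
    obtain ⟨a, b, rfl⟩ := hg
    obtain ⟨a', ha'⟩ := hW.surj a.1
    obtain ⟨b', hb'⟩ := hW.surj b.1
    obtain ⟨A⟩ := hy a' (by change 𝒢.src (p a') = y₀; rw [ha', a.2.1])
      (by change 𝒢.tgt (p a') = y₀; rw [ha', a.2.2])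
    obtain ⟨B⟩ := hy b' (by change 𝒢.src (p b') = y₀; rw [hb', b.2.1])
      (by change 𝒢.tgt (p b') = y₀; rw [hb', b.2.2])
    have hU : IsOpen (A.U ∩ B.U) := A.hU.inter B.hU
    let f : Eu n → P := fun w => A.S (w, 0)
    let h : Eu n → P := fun w => B.S (w, 0)
    have hf : Sm m f (A.U ∩ B.U) := by
      refine A.smooth.comp_space (h := fun w : Eu n => ((w, 0) : Eu n × A.F)) ?_ ?_
      · exact (contDiff_id.prodMk contDiff_const).contDiffOn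
      · intro w hw
        exact ⟨hw.1, Metric.mem_ball_self A.hε⟩
    have hh : Sm m h (A.U ∩ B.U) := by
      refine B.smooth.comp_space (h := fun w : Eu n => ((w, 0) : Eu n × B.F)) ?_ ?_
      · exact (contDiff_id.prodMk contDiff_const).contDiffOn
      · intro w hw
        exact ⟨hw.2, Metric.mem_ball_self B.hε⟩
    have f1 : ∀ z ∈ A.U ∩ B.U, 𝒢.src (p (f z)) = ψ.symm z := fun z hz =>
      A.src_eq _ hz.1 _ (Metric.mem_ball_self A.hε)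
    have f2 : ∀ z ∈ A.U ∩ B.U, 𝒢.tgt (p (f z)) = ψ.symm z := fun z hz =>
      A.tgt_eq _ hz.1 _ (Metric.mem_ball_self A.hε)
    have h1 : ∀ z ∈ A.U ∩ B.U, 𝒢.src (p (h z)) = ψ.symm z := fun z hz =>
      B.src_eq _ hz.2 _ (Metric.mem_ball_self B.hε)
    have h2 : ∀ z ∈ A.U ∩ B.U, 𝒢.tgt (p (h z)) = ψ.symm z := fun z hz =>
      B.tgt_eq _ hz.2 _ (Metric.mem_ball_self B.hε)
    obtain ⟨hC, hCp⟩ := comm_facts hW hU (pl_of_sm hU hf) (pl_of_sm hU hh) f1 f2 h1 h2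
    refine ⟨A.U ∩ B.U, fun z => 𝒢.comm (p (f z)) (p (h z)), hU, ⟨A.x₀U, B.x₀U⟩, hC, ?_, ?_, hCp⟩
    · change 𝒢.comm (p (A.S (ch (n := n) y₀ y₀, 0))) (p (B.S (ch (n := n) y₀ y₀, 0))) =
        𝒢.comm a.1 b.1
      rw [A.base, B.base, ha', hb']
    · intro w hw
      exact inC_comm (f1 w hw) (f2 w hw) (h1 w hw) (h2 w hw)
  | one =>
    have hT : IsOpen ψ.target := isOpen_extChartAt_target _
    have hs : Sm n (fun w => ψ.symm w) ψ.target := contMDiffOn_extChartAt_symm y₀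
    refine ⟨ψ.target, fun w => 𝒢.one (ψ.symm w), hT, mem_extChartAt_target _,
      hW.plot_one _ _ _ hT hs, ?_, ?_, ?_⟩
    · change 𝒢.one (ψ.symm (ψ y₀)) = 𝒢.one y₀
      rw [hsymm]
    · intro w _
      exact inC_one _
    · intro w hw a b
      exact plv_one hW hT hs hw a b
  | mul g h _ _ ihg ihh =>
    obtain ⟨Z₁, κ₁, hZ₁, h0₁, hs₁, hv₁, hi₁, hp₁⟩ := ihg
    obtain ⟨Z₂, κ₂, hZ₂, h0₂, hs₂, hv₂, hi₂, hp₂⟩ := ihh
    have hZ : IsOpen (Z₁ ∩ Z₂) := hZ₁.inter hZ₂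
    have hs₁' : Pl m p κ₁ (Z₁ ∩ Z₂) := hs₁.mono inter_subset_left
    have hs₂' : Pl m p κ₂ (Z₁ ∩ Z₂) := hs₂.mono inter_subset_right
    have hc : ∀ z ∈ Z₁ ∩ Z₂, 𝒢.src (κ₁ z) = 𝒢.tgt (κ₂ z) := fun z hz => by
      rw [(hi₁ z hz.1).src_eq, (hi₂ z hz.2).tgt_eq]
    refine ⟨Z₁ ∩ Z₂, fun z => 𝒢.mul (κ₁ z) (κ₂ z), hZ, ⟨h0₁, h0₂⟩,
      hs₁'.mul hW hs₂' hc hZ, ?_, ?_, ?_⟩
    · change 𝒢.mul (κ₁ (ψ y₀)) (κ₂ (ψ y₀)) = 𝒢.mul g.1 h.1
      rw [hv₁, hv₂]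
    · intro w hw
      exact (hi₁ w hw.1).mul (hi₂ w hw.2)
    · intro w hw a b
      rw [plv_mul hW hZ hs₁' hs₂' hc hw, hp₁ w hw.1, hp₂ w hw.2, add_zero]
  | inv g _ ihg =>
    obtain ⟨Z₁, κ₁, hZ₁, h0₁, hs₁, hv₁, hi₁, hp₁⟩ := ihg
    refine ⟨Z₁, fun z => 𝒢.inv (κ₁ z), hZ₁, h0₁, hs₁.inv hW, ?_, ?_, ?_⟩
    · change 𝒢.inv (κ₁ (ψ y₀)) = 𝒢.inv g.1
      rw [hv₁]
    · intro w hw
      exact (hi₁ w hw).inv
    · intro w hw a b
      rw [plv_inv hW hZ₁ hs₁ hw, hp₁ w hw, neg_zero]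

end ext

section vanish

variable {n m : ℕ} {M G P H : Type*} [TopologicalSpace M] [ChartedSpace (Eu n) M]
  [TopologicalSpace P] [ChartedSpace (Eu m) P] [TopologicalSpace H] [ChartedSpace (Eu m) H]
  [IsManifold 𝓘(ℝ, Eu n) ∞ M] [IsManifold 𝓘(ℝ, Eu m) ∞ P] [IsManifold 𝓘(ℝ, Eu m) ∞ H]
  {𝒢 : Gpd M G} {ℋ : Gpd M H} {p : P → G} {q : G → H} {Ω : FormField m P}
variable {E : Type} [NormedAddCommGroup E] [NormedSpace ℝ E] [FiniteDimensional ℝ E]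

/-- two plots with the same image under `q` and the same value at a point coincide near
that point -/
lemma eventually_eq (hW : WData n 𝒢 p Ω) (hq : QData (m := m) (d := m) 𝒢 ℋ p q) {Z : Set E}
    (hZ : IsOpen Z) {f f' : E → G} (hf : Pl m p f Z) (hf' : Pl m p f' Z) {z₀ : E} (hz₀ : z₀ ∈ Z)
    (h0 : f z₀ = f' z₀) (h : ∀ z ∈ Z, q (f z) = q (f' z)) : f =ᶠ[𝓝 z₀] f' := by
  obtain ⟨a, ha⟩ := hW.surj (f z₀)
  obtain ⟨Z₁, g, h1, h2, h3, h4, h5, h6⟩ := exists_lift_at hW hZ hf hz₀ ha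
  obtain ⟨Z₂, g', k1, k2, k3, k4, k5, k6⟩ := exists_lift_at hW hZ hf' hz₀ (ha.trans h0)
  obtain ⟨W, hWo, hgW, hinj⟩ := local_inj hq.smooth a (hq.sub _) rfl
  have e1 : ∀ᶠ z in 𝓝 z₀, g z ∈ W :=
    (h4.continuousOn.continuousAt (h1.mem_nhds h2)).eventually_mem (hWo.mem_nhds (h5 ▸ hgW))
  have e2 : ∀ᶠ z in 𝓝 z₀, g' z ∈ W :=
    (k4.continuousOn.continuousAt (k1.mem_nhds k2)).eventually_mem (hWo.mem_nhds (k5 ▸ hgW))
  filter_upwards [e1, e2, h1.mem_nhds h2, k1.mem_nhds k2, hZ.mem_nhds hz₀] with z hz1 hz2 hz3 hz4 hz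
  have h7 : q (p (g z)) = q (p (g' z)) := by rw [h6 z hz3, k6 z hz4, h z hz]
  have h8 : g z = g' z := hinj hz1 hz2 h7
  rw [← h6 z hz3, ← k6 z hz4, h8]

/-- If `κ` is a family over a chart with vanishing pull-back, the pull-back of every map through
the kernel passing through the value of `κ` vanishes. -/
lemma vanish_of_family (hW : WData n 𝒢 p Ω) (hq : QData (m := m) (d := m) 𝒢 ℋ p q) {Z : Set E}
    (hZ : IsOpen Z)
    {k : E → G} {y : E → M} (hk : Pl m p k Z) (hy : Sm n y Z) (hi : ∀ z ∈ Z, InC 𝒢 (y z) (k z))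
    {z₀ : E} (hz₀ : z₀ ∈ Z) {Z₁ : Set (Eu n)} {κ : Eu n → G} (hZ₁ : IsOpen Z₁)
    (h0 : ch (n := n) (y z₀) (y z₀) ∈ Z₁) (hκ : Pl m p κ Z₁)
    (hκ0 : κ (ch (n := n) (y z₀) (y z₀)) = k z₀)
    (hκi : ∀ w ∈ Z₁, InC 𝒢 ((ch (n := n) (y z₀)).symm w) (κ w))
    (hκp : ∀ w ∈ Z₁, ∀ a b, plv p Ω κ w a b = 0) (u v : E) : plv p Ω k z₀ u v = 0 := by
  set ψ := ch (n := n) (y z₀) with hψ
  have hyc : ContinuousOn y Z := hy.continuousOn
  have hpre : IsOpen (Z ∩ y ⁻¹' ψ.source) := hyc.isOpen_inter_preimage hZ (isOpen_extChartAt_source _)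
  have hsm : ContMDiffOn 𝓘(ℝ, Eu n) 𝓘(ℝ, Eu n) ∞ ψ ψ.source := by
    rw [hψ, ch, extChartAt_source]; exact contMDiffOn_extChartAt
  have hψy : ContDiffOn ℝ ∞ (fun z => ψ (y z)) (Z ∩ y ⁻¹' ψ.source) :=
    contMDiffOn_iff_contDiffOn.mp (comp_smOn hsm (hy.mono inter_subset_left) (fun z hz => hz.2))
  set Z₂ : Set E := (Z ∩ y ⁻¹' ψ.source) ∩ (fun z => ψ (y z)) ⁻¹' Z₁ with hZ₂
  have hZ₂o : IsOpen Z₂ := hψy.continuousOn.isOpen_inter_preimage hpre hZ₁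
  have hz₂ : z₀ ∈ Z₂ := ⟨⟨hz₀, mem_extChartAt_source _⟩, h0⟩
  have hψy₂ : ContDiffOn ℝ ∞ (fun z => ψ (y z)) Z₂ := hψy.mono inter_subset_left
  have hsmk : Pl m p (fun z => κ (ψ (y z))) Z₂ :=
    hκ.comp_space hZ₂o hψy₂ (fun z hz => hz.2)
  have hkZ₂ : Pl m p k Z₂ := hk.mono (fun z hz => hz.1.1)
  have heq : k =ᶠ[𝓝 z₀] fun z => κ (ψ (y z)) := by
    refine eventually_eq hW hq hZ₂o hkZ₂ hsmk hz₂ hκ0.symm ?_
    intro z hz
    have h1 := (inC_iff hq.alg).mp (hi z hz.1.1)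
    have h2 := (inC_iff hq.alg).mp (hκi _ hz.2)
    rw [ψ.left_inv hz.1.2] at h2
    rw [h1, h2]
  rw [plv_congr hW hZ₂o hkZ₂ hz₂ heq]
  have hp := plv_comp hW hκ (h := fun z => ψ (y z)) hZ₂o hψy₂ hz₂ h0 u v
  exact hp.trans (hκp _ h0 _ _)

/-- vanishing over good points -/
lemma good_vanish (hW : WData n 𝒢 p Ω) (hq : QData (m := m) (d := m) 𝒢 ℋ p q) {Z : Set E}
    (hZ : IsOpen Z) {k : E → G} {y : E → M} (hk : Pl m p k Z) (hy : Sm n y Z)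
    (hi : ∀ z ∈ Z, InC 𝒢 (y z) (k z)) {z₀ : E} (hz₀ : z₀ ∈ Z) (hg : Good (toSpan hW) (y z₀))
    (u v : E) : plv p Ω k z₀ u v = 0 := by
  obtain ⟨k₀, hk₀, hk₀'⟩ := hi z₀ hz₀
  obtain ⟨Z₁, κ, hZ₁, h0, hκ, hκ0, hκi, hκp⟩ := exists_ext hW hg hk₀
  exact vanish_of_family hW hq hZ hk hy hi hz₀ hZ₁ h0 hκ (hκ0.trans hk₀') hκi hκp u v

/-- vanishing over a chart -/
lemma chart_vanish [T2Space M] [SecondCountableTopology P] (hW : WData n 𝒢 p Ω)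
    (hq : QData (m := m) (d := m) 𝒢 ℋ p q)
    (x₀ : M) {Z : Set (Eu n)} (hZ : IsOpen Z) (hZT : Z ⊆ (ch (n := n) x₀).target) {β : Eu n → G}
    (hβ : Pl m p β Z) (hi : ∀ z ∈ Z, InC 𝒢 ((ch (n := n) x₀).symm z) (β z)) :
    ∀ z ∈ Z, ∀ a b, plv p Ω β z a b = 0 := by
  intro z hz a b
  by_contra hne
  set ψ := ch (n := n) x₀ with hψ
  have hc : ContinuousOn (fun z => plv p Ω β z a b) Z := (plv_smooth hW hβ a b).continuousOn
  have hO : IsOpen (Z ∩ (fun z => plv p Ω β z a b) ⁻¹' {0}ᶜ) :=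
    hc.isOpen_inter_preimage hZ isOpen_compl_singleton
  set Z' := Z ∩ (fun z => plv p Ω β z a b) ⁻¹' {0}ᶜ with hZ'
  have hs : Sm n (fun w => ψ.symm w) ψ.target := contMDiffOn_extChartAt_symm x₀
  have hψc : ContinuousOn ψ ψ.source := continuousOn_extChartAt x₀
  have hM : IsOpen (ψ.source ∩ ψ ⁻¹' Z') :=
    hψc.isOpen_inter_preimage (isOpen_extChartAt_source _) hO
  obtain ⟨x, hxM, hxg⟩ := (dense_good (toSpan hW)).inter_open_nonempty _ hM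
    ⟨ψ.symm z, ψ.map_target (hZT hz), by
      change ψ (ψ.symm z) ∈ Z'
      rw [ψ.right_inv (hZT hz)]
      exact ⟨hz, hne⟩⟩
  have hxZ : ψ x ∈ Z' := hxM.2
  apply hxZ.2
  refine good_vanish hW hq hZ (y := fun w => ψ.symm w) hβ (hs.mono hZT) hi hxZ.1 ?_ a b
  rw [ψ.left_inv hxM.1]
  exact hxg

/-- **Vanishing theorem**: `Ω` pulls back to zero along every smooth family of commutators. -/
theorem vanish [T2Space M] [SecondCountableTopology P] (hW : WData n 𝒢 p Ω)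
    (hq : QData (m := m) (d := m) 𝒢 ℋ p q) {Z : Set E}
    (hZ : IsOpen Z) {k : E → G} {y : E → M} (hk : Pl m p k Z) (hy : Sm n y Z)
    (hi : ∀ z ∈ Z, InC 𝒢 (y z) (k z)) {z₀ : E} (hz₀ : z₀ ∈ Z) (u v : E) :
    plv p Ω k z₀ u v = 0 := by
  set ψ := ch (n := n) (y z₀) with hψ
  have hT : IsOpen ψ.target := isOpen_extChartAt_target _
  have hs : Sm n (fun w => ψ.symm w) ψ.target := contMDiffOn_extChartAt_symm (y z₀)
  have hsymm : ψ.symm (ψ (y z₀)) = y z₀ := extChartAt_to_inv (I := 𝓘(ℝ, Eu n)) (y z₀)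
  -- the map to `H` given by the units
  have hf : Sm m (fun w => q (𝒢.one (ψ.symm w))) ψ.target := by
    refine sm_of_locally (fun w hw => ?_)
    obtain ⟨Z', g, h1, h2, h3, h4⟩ := hW.plot_one _ _ _ hT hs w hw
    exact ⟨Z', h1, h2, (comp_sm hq.smooth h3).congr' (fun y hy => congrArg q (h4 y hy).symm)⟩
  obtain ⟨a, ha⟩ := hW.surj (k z₀)
  obtain ⟨Z₁, κ, hZ₁, h0, hsub, hκ, hκ0, hκq⟩ := local_lift hq.smooth a (hq.sub _)
    ψ.target _ hT hf (ψ (y z₀)) (mem_extChartAt_target _) (by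
      rw [hsymm, ha, (inC_iff hq.alg).mp (hi z₀ hz₀)])
  have hκi : ∀ w ∈ Z₁, InC 𝒢 (ψ.symm w) (p (κ w)) := fun w hw => (inC_iff hq.alg).mpr (hκq w hw)
  have hκpl : Pl m p (fun w => p (κ w)) Z₁ := pl_of_sm hZ₁ hκ
  exact vanish_of_family hW hq hZ hk hy hi hz₀ hZ₁ h0 hκpl (by rw [hκ0, ha]) hκi
    (chart_vanish hW hq (y z₀) hZ₁ hsub hκpl hκi) u v

end vanish

end H91WG

end
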